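import Pool.Agent.Run7.h43.LT.Law

/-!
# Consequences of the law for the defects
-/

open CategoryTheory AlgebraicGeometry Polynomial

universe u v

namespace Run7.h43.LT

open Pool.Agent.H914 Pool.Agent.H914.VarClass Pool.Agent.H914.VarClass.Obj
  Pool.Agent.H914.WeilCohomology Pool.Agent.R908 Run7.h43.TF
open Pool.Agent.W534 hiding iter
open Pool.Agent.TH132.P (PoleDefect)
open Pool.Agent.Y163 (genU genFam genU_eq mem_genU span_le_genU)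

variable {k : Type u} [Field k] {𝒱 : VarClass k} {ops : CycleOps 𝒱}
  {W : WeilCohomology.{u, v} ops} {X Y Z : 𝒱.Obj} {𝒳 : Set 𝒱.Obj} {p : ℕ}
  {Φ : FrobSystem W p} {σ : W.K →+* ℂ}

lemma pairs_pos {P Q : ℂ[X]} (hP : P ≠ 0) (hQ : Q ≠ 0) {α β : ℂ} (hα : P.IsRoot α)
    (hβ : Q.IsRoot β) {r : ℕ} {x : ℂ} (h : α * β ^ r = x) : 0 < pairs P Q r x := by
  classical
  obtain ⟨s, hs⟩ := Multiset.exists_cons_of_mem ((mem_roots hP).2 hα)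
  have h1 : 0 < Q.roots.countP (fun β => α * β ^ r = x) :=
    Multiset.countP_pos.2 ⟨β, (mem_roots hQ).2 hβ, h⟩
  rw [pairs, hs, Multiset.map_cons, Multiset.sum_cons]
  convert Nat.add_pos_left h1 _

lemma frobPoly_ne (Z : 𝒱.Obj) (s i : ℕ) : frobPoly Φ σ Z s i ≠ 0 := by
  rw [Pool.Agent.W534.frobPoly_eq]
  exact ((LinearMap.charpoly_monic _).map σ).ne_zero

lemma crossCount_pos {n : ℕ} {D : ℕ → ℂ[X]} {a r c i j : ℕ} (hi : i ≤ 2 * X.dim) (hj : j ≤ n)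
    (hij : i + j = 2 * c) {α β : ℂ} (hα : (frobPoly Φ σ X a i).IsRoot α) (hD : D j ≠ 0)
    (hβ : (D j).IsRoot β) (h : α * β ^ r = (card Φ X a : ℂ) ^ c) :
    0 < crossCount Φ σ X n D a r c := by
  have h1 : (i, j) ∈ Finset.range (2 * X.dim + 1) ×ˢ Finset.range (n + 1) := by
    rw [Finset.mem_product, Finset.mem_range, Finset.mem_range]
    exact ⟨Nat.lt_succ_of_le hi, Nat.lt_succ_of_le hj⟩
  have h2 := Finset.single_le_sum (f := fun x : ℕ × ℕ => if x.1 + x.2 = 2 * c then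
    pairs (frobPoly Φ σ X a x.1) (D x.2) r ((card Φ X a : ℂ) ^ c) else 0)
    (fun _ _ => Nat.zero_le _) h1
  rw [crossCount]
  refine lt_of_lt_of_le ?_ h2
  simp only [if_pos hij]
  exact pairs_pos (frobPoly_ne X a i) hD hα hβ h

lemma root_deg_le [IsAlgClosed W.K] {s i : ℕ} {α : ℂ} (h : (frobPoly Φ σ Z s i).IsRoot α) :
    i ≤ 2 * Z.dim := by
  obtain ⟨b, deg, μ, -, hb, -⟩ := exists_adapted_basis (Φ := Φ) Z s (e := 0)
    (Submodule.zero_mem _) (fun x => rfl) (fun x => map_zero _)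
  rw [hb.frobPoly_eq σ i, IsRoot.def, eval_prod, Finset.prod_eq_zero_iff] at h
  obtain ⟨j, hj, -⟩ := h
  rw [← (Finset.mem_filter.1 hj).2]
  exact hb.deg_le j

lemma root_pow [IsAlgClosed W.K] {s i : ℕ} {α : ℂ} (h : (frobPoly Φ σ Z s i).IsRoot α) (m : ℕ) :
    (frobPoly Φ σ Z (s * m) i).IsRoot (α ^ m) := by
  obtain ⟨b, deg, μ, -, hb, -⟩ := exists_adapted_basis (Φ := Φ) Z s (e := 0)
    (Submodule.zero_mem _) (fun x => rfl) (fun x => map_zero _)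
  rw [hb.frobPoly_eq σ i, IsRoot.def, eval_prod, Finset.prod_eq_zero_iff] at h
  obtain ⟨j, hj, h1⟩ := h
  rw [(hb.pow m).frobPoly_eq σ i, IsRoot.def, eval_prod, Finset.prod_eq_zero_iff]
  refine ⟨j, hj, ?_⟩
  rw [eval_sub, eval_X, eval_C, sub_eq_zero] at h1
  rw [eval_sub, eval_X, eval_C, h1, map_pow, sub_self]

lemma poleFormula_of_zero {c : ℕ} (h : PoleDefect Φ σ Z c 0) : PoleFormula Φ σ Z c := by
  obtain ⟨t, ht, h⟩ := h
  refine ⟨t, ht, fun s hs hts => ?_⟩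
  rw [h s hs hts]
  simp

lemma defect_zero {c δ : ℕ} (h : PoleDefect Φ σ Z c δ) (h' : PoleFormula Φ σ Z c) : δ = 0 := by
  obtain ⟨t, ht, h⟩ := h
  obtain ⟨t', ht', h'⟩ := h'
  have h1 := h (t * t') (Nat.mul_pos ht ht') ⟨t', rfl⟩
  have h2 := h' (t * t') (Nat.mul_pos ht ht') ⟨t, mul_comm _ _⟩
  rw [h1] at h2
  have h3 := WithTop.coe_injective h2
  omega

lemma card_eq_pow {a r t : ℕ} (har : a * Φ.e X = r * (t * Φ.e Y)) :
    card Φ X a = card Φ Y t ^ r := by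
  rw [card, card, ← pow_mul]
  congr 1
  calc Φ.e X * a = a * Φ.e X := mul_comm _ _
    _ = Φ.e Y * t * r := by rw [har]; ring

lemma one_lt_card (hp : 1 < p) {s : ℕ} (hs : 0 < s) : (1 : ℝ) < (card Φ Z s : ℝ) := by
  have : 1 < card Φ Z s := Nat.one_lt_pow (Nat.mul_pos (Φ.e_pos Z) hs).ne' hp
  exact_mod_cast this

/-- The weights. -/
lemma weights (hp : 1 < p) (hRH : ∀ Z, RiemannHyp Φ σ Z) {a r t i j m m' : ℕ} (ha : 0 < a)
    (ht : 0 < t) (har : a * Φ.e X = r * (t * Φ.e Y)) {α β : ℂ}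
    (hα : (frobPoly Φ σ X a i).IsRoot α) (hβ : (frobPoly Φ σ Y t j).IsRoot β)
    (h : α * β ^ r * (card Φ X a : ℂ) ^ m' = (card Φ X a : ℂ) ^ m) : i + j + 2 * m' = 2 * m := by
  have hq := one_lt_card (Φ := Φ) (Z := X) hp ha
  have h1 := hRH X a ha i α hα
  have h2 := hRH Y t ht j β hβ
  have h3 : ‖β ^ r‖ ^ 2 = (card Φ X a : ℝ) ^ j := by
    rw [norm_pow, ← pow_mul, mul_comm r 2, pow_mul, h2, card_eq_pow har]
    push_cast
    rw [← pow_mul, ← pow_mul, mul_comm]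
  have h4 := congrArg (fun z => ‖z‖ ^ 2) h
  simp only [norm_mul, mul_pow, norm_pow, Complex.norm_natCast] at h4
  rw [norm_pow] at h3
  rw [h1, h3, ← pow_mul, ← pow_mul, ← pow_add, ← pow_add] at h4
  have h5 := pow_right_injective₀ (by linarith) hq.ne' h4
  omega

/-- If the formula of Tate holds for `X × Y` then no eigenvalue of `X` pairs with a root of the
defect polynomials of `Y`. -/
lemma no_pair [IsAlgClosed W.K] (hp : 1 < p) (hRH : ∀ Z, RiemannHyp Φ σ Z) {t : ℕ}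
    {D : ℕ → ℂ[X]} (hD : CDividePolys Φ σ Y t D) (hG : CGivesDefects Φ σ 𝒳 Y t D) (hX : X ∈ 𝒳)
    (hpole : PoleTimes Φ σ X Y) {a r i j : ℕ} (ha : 0 < a) (hr : 0 < r)
    (har : a * Φ.e X = r * (t * Φ.e Y)) {α β : ℂ} (hα : (frobPoly Φ σ X a i).IsRoot α)
    (hβ : (D j).IsRoot β) (c : ℕ) : α * β ^ r ≠ (card Φ X a : ℂ) ^ c := by
  intro h
  obtain ⟨ht, hD⟩ := hD
  have hβ' : (frobPoly Φ σ Y t j).IsRoot β := hβ.dvd (hD j).2
  have hw := weights (m' := 0) (m := c) hp hRH ha ht har hα hβ' (by rw [pow_zero, mul_one]; exact h)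
  have hi := root_deg_le hα
  have hj := root_deg_le hβ'
  have hc : c ≤ (X.prod Y).dim := by rw [dim_prod]; omega
  obtain ⟨δ, hδ, m, hm, hcount⟩ := hG X hX c hc
  have h0 := defect_zero hδ (hpole c hc)
  have h1 := hcount (a * m) (r * m) (Nat.mul_pos ha hm) (Nat.mul_pos hr hm) ⟨r, mul_comm _ _⟩
    (by calc a * m * Φ.e X = (a * Φ.e X) * m := by ring
          _ = r * m * (t * Φ.e Y) := by rw [har]; ring)
  have h2 := crossCount_pos (n := 2 * Y.dim) (D := D) (r := r * m) (c := c) hi hj (by omega)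
    (root_pow hα m) (hD j).1.ne_zero hβ (by
      rw [pow_mul, ← mul_pow, h, card_mul_eq]
      push_cast
      rw [← pow_mul, ← pow_mul, mul_comm])
  omega

/-- If no eigenvalue of `X` pairs with a root of the defect polynomials of `Y` then the formula of
Tate holds for `X × Y`. -/
lemma pole_of_no_pair {t : ℕ} {D : ℕ → ℂ[X]} (hD : CDividePolys Φ σ Y t D)
    (hG : CGivesDefects Φ σ 𝒳 Y t D) (hX : X ∈ 𝒳)
    (h : ∀ (a r i j c : ℕ) (α β : ℂ), 0 < a → 0 < r → a * Φ.e X = r * (t * Φ.e Y) →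
      (frobPoly Φ σ X a i).IsRoot α → (D j).IsRoot β → α * β ^ r ≠ (card Φ X a : ℂ) ^ c) :
    PoleTimes Φ σ X Y := by
  classical
  intro c hc
  obtain ⟨δ, hδ, m, hm, hcount⟩ := hG X hX c hc
  have ht := hD.1
  have ha0 : 0 < m * (t * Φ.e Y) := Nat.mul_pos hm (Nat.mul_pos ht (Φ.e_pos _))
  have hr0 : 0 < m * Φ.e X := Nat.mul_pos hm (Φ.e_pos _)
  have har : m * (t * Φ.e Y) * Φ.e X = m * Φ.e X * (t * Φ.e Y) := by ring
  have h1 := hcount (m * (t * Φ.e Y)) (m * Φ.e X) ha0 hr0 ⟨_, rfl⟩ har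
  suffices hz : crossCount Φ σ X (2 * Y.dim) D (m * (t * Φ.e Y)) (m * Φ.e X) c = 0 by
    rw [hz] at h1
    subst h1
    exact poleFormula_of_zero hδ
  rw [crossCount]
  refine Finset.sum_eq_zero fun x _ => ?_
  by_cases hx : x.1 + x.2 = 2 * c
  · rw [if_pos hx, pairs, Multiset.sum_eq_zero_iff]
    intro n hn
    obtain ⟨α, hα, rfl⟩ := Multiset.mem_map.1 hn
    rw [mem_roots (frobPoly_ne _ _ _)] at hα
    rw [Multiset.countP_eq_zero]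
    intro β hβ
    rw [mem_roots (hD.2 _).1.ne_zero] at hβ
    exact h _ _ _ _ _ _ _ ha0 hr0 har hα hβ
  · rw [if_neg hx]

lemma card_ne_zero' (Z : 𝒱.Obj) (s : ℕ) : (card Φ Z s : ℂ) ≠ 0 := by
  have := card_pos Φ (Z := Z) s
  exact_mod_cast this.ne'

/-- The version of `no_pair` with powers of `q` on both sides. -/
lemma no_pair' [IsAlgClosed W.K] (hp : 1 < p) (hRH : ∀ Z, RiemannHyp Φ σ Z) {t : ℕ}
    {D : ℕ → ℂ[X]} (hD : CDividePolys Φ σ Y t D) (hG : CGivesDefects Φ σ 𝒳 Y t D) (hX : X ∈ 𝒳)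
    (hpole : PoleTimes Φ σ X Y) {a r i j : ℕ} (ha : 0 < a) (hr : 0 < r)
    (har : a * Φ.e X = r * (t * Φ.e Y)) {α β : ℂ} (hα : (frobPoly Φ σ X a i).IsRoot α)
    (hβ : (D j).IsRoot β) (m m' : ℕ) :
    α * β ^ r * (card Φ X a : ℂ) ^ m' ≠ (card Φ X a : ℂ) ^ m := by
  intro key
  have hw := weights hp hRH ha hD.1 har hα (hβ.dvd (hD.2 _).2) key
  obtain ⟨c', hc'⟩ : ∃ c', m = c' + m' := ⟨m - m', by omega⟩
  refine no_pair hp hRH hD hG hX hpole ha hr har hα hβ c' ?_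
  apply mul_right_cancel₀ (pow_ne_zero m' (card_ne_zero' X a))
  rw [key, ← pow_add, hc']

/-- **Transfer between members of the set.** -/
theorem transfer [IsAlgClosed W.K] (hp : 1 < p) (hRH : ∀ Z, RiemannHyp Φ σ Z)
    (h𝒳 : ∀ X ∈ 𝒳, ∀ X' ∈ 𝒳, PoleTimes Φ σ X X') {𝒳₀ : Set 𝒱.Obj} (h0 : 𝒳₀ ⊆ 𝒳) {X' : 𝒱.Obj}
    (hX' : X' ∈ 𝒳) (hcov : EigenvaluesAmong Φ σ 𝒳₀ X') (Y : 𝒱.Obj)
    (hY : ∀ X ∈ 𝒳₀, PoleTimes Φ σ X Y) : PoleTimes Φ σ X' Y := by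
  classical
  obtain ⟨e, he⟩ := exists_cuts (fun X hX X' hX' => homEqNum_of_pole hp hRH (h𝒳 X hX X' hX')) Y
  obtain ⟨t, D, hD, hG, -, -⟩ := law hp hRH h𝒳 he
  refine pole_of_no_pair hD hG hX' fun a' r' i j c α' β ha0 hr0 har' hα' hβ hab => ?_
  obtain ⟨X, hX, a, r, l, α, m₁, m₂, ha, hr, har, hα, hrel⟩ := hcov a' i α' ha0 hα'
  have har2 : a * Φ.e X = (r * r') * (t * Φ.e Y) := by
    rw [har, har']; ring
  have hcard : (card Φ X a : ℂ) = (card Φ X' a' : ℂ) ^ r := by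
    rw [card_eq_pow har]; push_cast; rfl
  refine no_pair' hp hRH hD hG (h0 hX) (hY X hX) ha (Nat.mul_pos hr hr0) har2 hα hβ (c + m₁) m₂ ?_
  calc α * β ^ (r * r') * (card Φ X a : ℂ) ^ m₂
      = (α * (card Φ X a : ℂ) ^ m₂) * (β ^ r') ^ r := by rw [← pow_mul, mul_comm r' r]; ring
    _ = (α' * β ^ r') ^ r * (card Φ X a : ℂ) ^ m₁ := by rw [← hrel]; ring
    _ = (card Φ X a : ℂ) ^ (c + m₁) := by
      rw [hab, ← pow_mul, mul_comm c r, pow_mul, ← hcard, pow_add]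

/-- **Finitely many members of the set suffice for all varieties with given eigenvalues.** -/
theorem finite_check [IsAlgClosed W.K] (hp : 1 < p) (hRH : ∀ Z, RiemannHyp Φ σ Z)
    (h𝒳 : ∀ X ∈ 𝒳, ∀ X' ∈ 𝒳, PoleTimes Φ σ X X') (Y₀ : 𝒱.Obj) :
    ∃ 𝒳₀ ⊆ 𝒳, 𝒳₀.Finite ∧ ∀ Y, EigenvaluesAmong Φ σ {Y₀} Y →
      (∀ X ∈ 𝒳₀, PoleTimes Φ σ X Y) → ∀ X ∈ 𝒳, PoleTimes Φ σ X Y := by
  classical
  obtain ⟨b, deg, ν, -, hb, -⟩ := exists_adapted_basis (Φ := Φ) Y₀ 1 (e := 0)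
    (Submodule.zero_mem _) (fun x => rfl) (fun x => map_zero _)
  let P : Fin (Module.finrank W.K (W.H Y₀)) → 𝒱.Obj → Prop := fun n X => ∃ a r i m m' α,
    0 < a ∧ 0 < r ∧ a * Φ.e X = r * Φ.e Y₀ ∧ (frobPoly Φ σ X a i).IsRoot α ∧
      α * σ (ν n) ^ r * (card Φ X a : ℂ) ^ (m' : ℕ) = (card Φ X a : ℂ) ^ (m : ℕ)
  let f : {n // ∃ X ∈ 𝒳, P n X} → 𝒱.Obj := fun n => n.2.choose
  have hf : ∀ n, f n ∈ 𝒳 ∧ P n (f n) := fun n => n.2.choose_spec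
  refine ⟨Set.range f, ?_, Set.finite_range f, fun Y hY hpole X hX => ?_⟩
  · rintro _ ⟨n, rfl⟩
    exact (hf n).1
  obtain ⟨e, he⟩ := exists_cuts (fun X hX X' hX' => homEqNum_of_pole hp hRH (h𝒳 X hX X' hX')) Y
  obtain ⟨t, D, hD, hG, -, -⟩ := law hp hRH h𝒳 he
  refine pole_of_no_pair hD hG hX fun a' r' i j c α β ha0 hr0 har' hα hβ hab => ?_
  obtain ⟨Y₁, hY₁, a₀, r₀, l, α₀, m, m', ha₀, hr₀, har₀, hα₀, hrel⟩ :=
    hY t j β hD.1 (hβ.dvd (hD.2 j).2)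
  have hY₂ : Y₀ = Y₁ := hY₁.symm
  subst hY₂
  -- the eigenvalue of `Y₀`
  obtain ⟨n, hn⟩ : ∃ n, α₀ = σ (ν n) ^ a₀ := by
    have h1 := (hb.pow a₀).frobPoly_eq σ l
    rw [one_mul] at h1
    rw [h1, IsRoot.def, eval_prod, Finset.prod_eq_zero_iff] at hα₀
    obtain ⟨n, -, h2⟩ := hα₀
    refine ⟨n, ?_⟩
    rwa [eval_sub, eval_X, eval_C, sub_eq_zero, map_pow] at h2
  have hq0 : (card Φ Y₀ a₀ : ℂ) = (card Φ Y t : ℂ) ^ r₀ := by
    rw [card_eq_pow har₀]; push_cast; rfl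
  have hP : P n X := by
    have e1 : a' * r₀ * Φ.e X = a₀ * r' * Φ.e Y₀ := by
      calc a' * r₀ * Φ.e X = (a' * Φ.e X) * r₀ := by ring
        _ = r' * (r₀ * (t * Φ.e Y)) := by rw [har']; ring
        _ = a₀ * r' * Φ.e Y₀ := by rw [← har₀]; ring
    have hq2 : (card Φ X (a' * r₀) : ℂ) = (card Φ X a' : ℂ) ^ r₀ := by
      rw [card_mul_eq]; push_cast; rfl
    have hq3 : (card Φ X (a' * r₀) : ℂ) = (card Φ Y₀ a₀ : ℂ) ^ r' := by
      have e2 : a' * r₀ * Φ.e X = r' * (a₀ * Φ.e Y₀) := by rw [e1]; ring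
      rw [card_eq_pow e2]; push_cast; rfl
    refine ⟨a' * r₀, a₀ * r', i, c + m, m', α ^ r₀, Nat.mul_pos ha0 hr₀, Nat.mul_pos ha₀ hr0, e1,
      root_pow hα r₀, ?_⟩
    calc α ^ r₀ * σ (ν n) ^ (a₀ * r') * (card Φ X (a' * r₀) : ℂ) ^ m'
        = α ^ r₀ * (α₀ * (card Φ Y₀ a₀ : ℂ) ^ m') ^ r' := by
          rw [hn, pow_mul, hq3, ← pow_mul _ r' m', mul_comm r' m', pow_mul _ m' r']; ring
      _ = (α * β ^ r') ^ r₀ * ((card Φ Y₀ a₀ : ℂ) ^ r') ^ m := by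
          rw [← hrel, mul_pow, mul_pow, ← pow_mul, ← pow_mul, ← pow_mul, ← pow_mul,
            mul_comm r' r₀, mul_comm r' m]; ring
      _ = (card Φ X (a' * r₀) : ℂ) ^ (c + m) := by
          rw [hab, ← hq3, pow_add, ← pow_mul, mul_comm c r₀, pow_mul, ← hq2]
  obtain ⟨hf1, a₁, r₁, i₁, m₁, m₁', α₁, ha₁, hr₁, har₁, hα₁, hrel₁⟩ := hf ⟨n, X, hX, hP⟩
  have har3 : a₁ * a₀ * Φ.e (f ⟨n, X, hX, hP⟩) = r₀ * r₁ * (t * Φ.e Y) := by
    calc a₁ * a₀ * Φ.e (f ⟨n, X, hX, hP⟩) = (a₁ * Φ.e (f ⟨n, X, hX, hP⟩)) * a₀ := by ring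
      _ = r₁ * (a₀ * Φ.e Y₀) := by rw [har₁]; ring
      _ = r₀ * r₁ * (t * Φ.e Y) := by rw [har₀]; ring
  have hq4 : (card Φ (f ⟨n, X, hX, hP⟩) (a₁ * a₀) : ℂ) = (card Φ (f ⟨n, X, hX, hP⟩) a₁ : ℂ) ^ a₀ := by
    rw [card_mul_eq]; push_cast; rfl
  have hq5 : (card Φ (f ⟨n, X, hX, hP⟩) (a₁ * a₀) : ℂ) = (card Φ Y₀ a₀ : ℂ) ^ r₁ := by
    have e2 : a₁ * a₀ * Φ.e (f ⟨n, X, hX, hP⟩) = r₁ * (a₀ * Φ.e Y₀) := by
      rw [har3, har₀]; ring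
    rw [card_eq_pow e2]; push_cast; rfl
  refine no_pair' hp hRH hD hG hf1 (hpole _ ⟨_, rfl⟩) (Nat.mul_pos ha₁ ha₀)
    (Nat.mul_pos hr₀ hr₁) har3 (root_pow hα₁ a₀) hβ (m' + m₁) (m + m₁') ?_
  calc α₁ ^ a₀ * β ^ (r₀ * r₁) * (card Φ (f ⟨n, X, hX, hP⟩) (a₁ * a₀) : ℂ) ^ (m + m₁')
      = α₁ ^ a₀ * (β ^ r₀ * (card Φ Y₀ a₀ : ℂ) ^ m) ^ r₁ *
          (card Φ (f ⟨n, X, hX, hP⟩) (a₁ * a₀) : ℂ) ^ m₁' := by
        rw [pow_add, mul_pow, ← pow_mul, ← pow_mul _ m r₁, mul_comm m r₁, pow_mul _ r₁ m, ← hq5]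
        ring
    _ = (α₁ * σ (ν n) ^ r₁ * (card Φ (f ⟨n, X, hX, hP⟩) a₁ : ℂ) ^ m₁') ^ a₀ *
          (card Φ (f ⟨n, X, hX, hP⟩) (a₁ * a₀) : ℂ) ^ m' := by
        rw [hrel, hn, mul_pow, mul_pow, mul_pow, ← pow_mul _ m' r₁, mul_comm m' r₁,
          pow_mul _ r₁ m', ← hq5, ← pow_mul _ m₁' a₀, mul_comm m₁' a₀, pow_mul _ a₀ m₁', ← hq4,
          ← pow_mul, ← pow_mul, mul_comm a₀ r₁]
        ring
    _ = (card Φ (f ⟨n, X, hX, hP⟩) (a₁ * a₀) : ℂ) ^ (m' + m₁) := by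
        rw [hrel₁, ← pow_mul, mul_comm m₁ a₀, pow_mul, ← hq4, pow_add]
        ring

/-- **Transitivity.** -/
theorem transitive [IsAlgClosed W.K] (hp : 1 < p) (hRH : ∀ Z, RiemannHyp Φ σ Z)
    (h𝒳 : ∀ X ∈ 𝒳, ∀ X' ∈ 𝒳, PoleTimes Φ σ X X') {Y : 𝒱.Obj}
    (hcov : DualEigenvaluesAmong Φ σ 𝒳 Y) (hY : ∀ X ∈ 𝒳, PoleTimes Φ σ X Y) {Z : 𝒱.Obj}
    (hZ : ∀ X ∈ 𝒳, PoleTimes Φ σ X Z) : PoleTimes Φ σ Y Z := by
  classical
  obtain ⟨e, he⟩ := exists_cuts (fun X hX X' hX' => homEqNum_of_pole hp hRH (h𝒳 X hX X' hX')) Y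
  obtain ⟨t, D, hD, hG, hid, -⟩ := law hp hRH h𝒳 he
  have hD1 : ∀ j, D j = 1 := by
    intro j
    by_contra hne
    have hdeg : (D j).degree ≠ 0 := by
      intro h0
      apply hne
      exact eq_one_of_monic_natDegree_zero (hD.2 j).1
        (natDegree_eq_zero_iff_degree_le_zero.2 h0.le)
    obtain ⟨β, hβ⟩ := IsAlgClosed.exists_root (D j) hdeg
    obtain ⟨X, hX, a, r, i, α, c, ha, hr, har, hα, hc⟩ := hcov t j β hD.1 (hβ.dvd (hD.2 j).2)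
    exact no_pair hp hRH hD hG hX (hY X hX) ha hr har hα hβ c hc
  have hid' := hid hD1
  have hmem : (LinearMap.id : W.H Y →ₗ[W.K] W.H Y) ∈ Fac W 𝒳 Y Y 0 := hid' ▸ he.mem
  intro c hc
  rw [pole_iff_tate hp (hRH _) hc]
  have hone : ∀ x : W.H (Y.prod Z), extHom W (LinearMap.id : W.H Y →ₗ[W.K] W.H Y)
      (LinearMap.id : W.H Z →ₗ[W.K] W.H Z) x = x := by
    intro x; rw [extHom_id]; rfl
  constructor
  · intro x hx
    obtain ⟨s, hs, hx'⟩ := IsTate.mem Φ hx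
    have h1 : x ∈ (genFam Φ).T (Y.prod Z) c := (mem_genU Φ).2 ⟨s, hs, hx'⟩
    have h2 := fac_value_left (genFam Φ) (fun Z j => genU_le_gr Z j)
      (fun X hX j => genU_le_of_pole hp hRH (hZ X hX) j) hmem h1
    rwa [hone, add_zero] at h2
  · intro z hz hn
    have h1 := numTriv_cl (W := W) hc hz hn
    have h2 := fac_kill_left (fun X hX => homEqNum_of_pole hp hRH (hZ X hX)) hmem
      (c := c) (Submodule.subset_span ⟨c, rfl, z, hz, rfl⟩) h1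
    rwa [hone] at h2

/-- **The integral defect polynomials.** -/
theorem integral_law [IsAlgClosed W.K] (hp : 1 < p) (hRH : ∀ Z, RiemannHyp Φ σ Z)
    (h𝒳 : ∀ X ∈ 𝒳, ∀ X' ∈ 𝒳, PoleTimes Φ σ X X') (Y : 𝒱.Obj) (hint : IntegralPolys Φ σ Y) :
    ∃ t D, DividePolys Φ σ Y t D ∧ GivesDefects Φ σ 𝒳 Y t D := by
  obtain ⟨e, he⟩ := exists_cuts (fun X hX X' hX' => homEqNum_of_pole hp hRH (h𝒳 X hX X' hX')) Y
  obtain ⟨t, D, ⟨ht, hD⟩, hG, -, hrat⟩ := law hp hRH h𝒳 he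
  have key : ∀ j, ∃ D' : ℤ[X], D'.Monic ∧ D'.map (Int.castRingHom ℂ) = D j ∧
      ∃ P : ℤ[X], frobPoly Φ σ Y t j = P.map (Int.castRingHom ℂ) ∧ D' ∣ P := by
    intro j
    obtain ⟨hmon, hdvd⟩ := hD j
    obtain ⟨χ, hχ⟩ := hrat hint j
    obtain ⟨P, hP⟩ := hint t ht j
    have hinj : Function.Injective (Int.castRingHom ℂ) := Int.cast_injective
    have hPm : P.Monic := by
      have h1 : (frobPoly Φ σ Y t j).Monic := by
        rw [Pool.Agent.W534.frobPoly_eq]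
        exact (LinearMap.charpoly_monic _).map σ
      rw [hP] at h1
      exact Polynomial.monic_of_injective hinj h1
    have hχm : χ.Monic := by
      rw [hχ] at hmon
      exact Polynomial.monic_of_injective (algebraMap ℚ ℂ).injective hmon
    have hPQ : P.map (Int.castRingHom ℂ) = (P.map (algebraMap ℤ ℚ)).map (algebraMap ℚ ℂ) := by
      rw [Polynomial.map_map]
      congr 1
    have h1 : χ ∣ P.map (algebraMap ℤ ℚ) := by
      rw [hP, hPQ, hχ] at hdvd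
      exact (Polynomial.map_dvd_map' (algebraMap ℚ ℂ)).1 hdvd
    obtain ⟨D', hD'⟩ := IsIntegrallyClosed.eq_map_mul_C_of_dvd ℚ hPm h1
    rw [hχm.leadingCoeff, C_1, mul_one] at hD'
    have hDm : D'.Monic := by
      rw [← hD'] at hχm
      exact Polynomial.monic_of_injective (algebraMap ℤ ℚ).injective_int hχm
    refine ⟨D', hDm, ?_, P, hP, ?_⟩
    · rw [hχ, ← hD', Polynomial.map_map]
      congr 1
    · rw [← hD'] at h1
      exact (Polynomial.map_dvd_map _ (algebraMap ℤ ℚ).injective_int hDm).1 h1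
  choose D' h1 h2 h3 using key
  refine ⟨t, D', ⟨ht, fun j => ⟨h1 j, h3 j⟩⟩, ?_⟩
  have hDD : (fun j => (D' j).map (Int.castRingHom ℂ)) = D := funext h2
  intro X hX c hc
  obtain ⟨δ, hδ, m, hm, h⟩ := hG X hX c hc
  refine ⟨δ, hδ, m, hm, ?_⟩
  rw [hDD]
  exact h

end Run7.h43.LT
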