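import Mathlib

/-!
# Algebras over the rational numbers with a nondegenerate trace form
-/

namespace Run7.h43.LT

/-- Left ideals have right identities. -/
theorem exists_right_identityQ {K A : Type*} [Field K] [CharZero K] [Ring A] [Algebra K A]
    [Module.Finite K A] [Algebra ℚ A] [IsScalarTower ℚ K A] (E : Subalgebra ℚ A) (τ : A →ₗ[K] K)
    (hτ : ∀ T ∈ E, ∃ q : ℚ, τ T = q) (hnil : ∀ T ∈ E, IsNilpotent T → τ T = 0)
    (hnd : ∀ T ∈ E, (∀ S ∈ E, τ (S * T) = 0) → T = 0)
    (J : Ideal E) : ∃ f ∈ J, ∀ j ∈ J, j * f = j := by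
  classical
  obtain ⟨ret, hret⟩ : ∃ g : K →ₗ[ℚ] ℚ, ∀ q : ℚ, g (q : K) = q := by
    obtain ⟨g, hg⟩ := (Algebra.linearMap ℚ K).exists_leftInverse_of_injective
      (LinearMap.ker_eq_bot.2 (algebraMap ℚ K).injective)
    refine ⟨g, fun q => ?_⟩
    have := congrArg (fun F => F q) hg
    simpa using this
  -- finiteness
  have hfin : Module.Finite ℚ E := by
    obtain ⟨B, hBE, hB, hlin⟩ := exists_linearIndependent K (E : Set A)
    have : Finite B := hlin.finite
    have : Fintype B := Fintype.ofFinite B
    let g : E →ₗ[ℚ] (B → ℚ) :=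
      { toFun := fun T S => ret (τ ((S : A) * (T : A)))
        map_add' := fun T T' => by
          funext S
          simp [mul_add]
        map_smul' := fun q T => by
          funext S
          have h1 : τ ((S : A) * ((q • T : E) : A)) = (q : K) * τ ((S : A) * (T : A)) := by
            have h2 : ((q • T : E) : A) = (q : K) • (T : A) := by
              change q • (T : A) = (q : K) • (T : A)
              rw [← algebraMap_smul K q (T : A)]
              rfl
            rw [h2, mul_smul_comm, map_smul, smul_eq_mul]
          change ret (τ ((S : A) * ((q • T : E) : A))) = q • ret (τ ((S : A) * (T : A)))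
          rw [h1, ← map_smul]
          congr 1
          rw [Algebra.smul_def]
          rfl }
    have hg : Function.Injective g := by
      rw [injective_iff_map_eq_zero]
      intro T hT
      apply Subtype.ext
      apply hnd _ T.2
      intro S hS
      have h0 : ∀ S : B, τ ((S : A) * (T : A)) = 0 := by
        intro S
        obtain ⟨q, hq⟩ := hτ _ (E.mul_mem (hBE S.2) T.2)
        have h1 : ret (τ ((S : A) * (T : A))) = 0 := congrFun hT S
        rw [hq, hret] at h1
        rw [hq, h1, Rat.cast_zero]
      have h1 : S ∈ Submodule.span K B := by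
        rw [hB]; exact Submodule.subset_span hS
      have h2 : ∀ S ∈ Submodule.span K B, τ (S * (T : A)) = 0 := by
        intro S hS
        induction hS using Submodule.span_induction with
        | mem S hS => exact h0 ⟨S, hS⟩
        | zero => rw [zero_mul, map_zero]
        | add S S' _ _ h h' => rw [add_mul, map_add, h, h', add_zero]
        | smul c S _ h => rw [smul_mul_assoc, map_smul, h, smul_zero]
      exact h2 S h1
    exact Module.Finite.of_injective g hg
  have : IsArtinianRing E := IsArtinianRing.of_finite ℚ E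
  have hss : IsSemisimpleRing E := by
    rw [IsArtinianRing.isSemisimpleRing_iff_jacobson, eq_bot_iff]
    intro T hT
    rw [Submodule.mem_bot]
    apply Subtype.ext
    apply hnd _ T.2
    intro S hS
    have h1 : (⟨S, hS⟩ : E) * T ∈ Ring.jacobson E := Ideal.mul_mem_left _ _ hT
    obtain ⟨n, hn⟩ := (IsSemiprimaryRing.isNilpotent : IsNilpotent (Ring.jacobson E))
    have h2 : ((⟨S, hS⟩ : E) * T) ^ n = 0 := by
      have h3 := Ideal.pow_mem_pow h1 n
      rw [hn] at h3
      exact (Submodule.mem_bot _).1 h3
    have h4 : (S * (T : A)) ^ n = 0 := by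
      have := congrArg (fun x : E => (x : A)) h2
      simpa using this
    exact hnil _ (E.mul_mem hS T.2) ⟨n, h4⟩
  obtain ⟨J', hJ'⟩ := exists_isCompl J
  have h1 : (1 : E) ∈ J ⊔ J' := by rw [hJ'.sup_eq_top]; trivial
  obtain ⟨f, hf, f', hf', hff⟩ := Submodule.mem_sup.1 h1
  refine ⟨f, hf, fun j hj => ?_⟩
  have h2 : j - j * f = j * f' := by
    have : j = j * (f + f') := by rw [hff, mul_one]
    conv_lhs => rw [this]
    rw [mul_add]
    have : (j * f + j * f') * f = j * f := by
      rw [← mul_add, hff, mul_one]
    rw [this]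
    abel
  have h3 : j - j * f ∈ J ⊓ J' := by
    refine ⟨J.sub_mem hj (Ideal.mul_mem_left _ _ hf), ?_⟩
    rw [h2]
    exact Ideal.mul_mem_left _ _ hf'
  rw [hJ'.inf_eq_bot] at h3
  exact (sub_eq_zero.1 ((Submodule.mem_bot _).1 h3)).symm

end Run7.h43.LT
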