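import Pool.Agent.Run7.h43.TF.Rad
import Pool.Agent.Run7.h43.LT.SemiQ
import Pool.Agent.W534.QOp

/-!
# The part of the cohomology generated by a set of varieties is cut out by an algebraic projector
-/

open CategoryTheory AlgebraicGeometry

universe u v

namespace Run7.h43.LT

open Pool.Agent.H914 Pool.Agent.H914.VarClass Pool.Agent.H914.VarClass.Obj
  Pool.Agent.H914.WeilCohomology Pool.Agent.R908 Run7.h43.TF
open Pool.Agent.W534 (QOp rop_iff)

variable {k : Type u} [Field k] {𝒱 : VarClass k} {ops : CycleOps 𝒱}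
  {W : WeilCohomology.{u, v} ops} {X Y Z X' : 𝒱.Obj}

lemma kcomp {d e f : ℤ} {φ : W.H X →ₗ[W.K] W.H Y} {ψ : W.H Y →ₗ[W.K] W.H Z}
    (hψ : ψ ∈ KOp W Y Z e) (hφ : φ ∈ KOp W X Y d) (h : d + e = f) : ψ ∘ₗ φ ∈ KOp W X Z f :=
  h ▸ KOp.comp hψ hφ

/-! ### Correspondences of degree zero -/

/-- The algebra of endomorphisms of the cohomology as an algebra over the rational numbers. -/
@[reducible] noncomputable def ratAlg (W : WeilCohomology.{u, v} ops) (X : 𝒱.Obj) :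
    Algebra ℚ (Module.End W.K (W.H X)) :=
  ((algebraMap W.K (Module.End W.K (W.H X))).comp (algebraMap ℚ W.K)).toAlgebra'
    (fun r x => Algebra.commutes (algebraMap ℚ W.K r) x)

/-- The algebra of the algebraic correspondences of degree zero with rational coefficients. -/
noncomputable def E0 (W : WeilCohomology.{u, v} ops) (X : 𝒱.Obj) :
    letI := ratAlg W X
    Subalgebra ℚ (Module.End W.K (W.H X)) :=
  letI := ratAlg W X
  { carrier := {T | QOp W X X 0 T}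
    mul_mem' := fun {a b} ha hb => by
      have h1 : QOp W X X (0 + 0) (a ∘ₗ b) := QOp.comp ha hb
      rw [add_zero] at h1
      exact h1
    add_mem' := fun {a b} ha hb => QOp.add ha hb
    algebraMap_mem' := fun r => by
      have h : (algebraMap ℚ (Module.End W.K (W.H X))) r = (r : W.K) • LinearMap.id := by
        have h1 : (algebraMap ℚ (Module.End W.K (W.H X))) r =
            (algebraMap W.K (Module.End W.K (W.H X))) (algebraMap ℚ W.K r) := rfl
        rw [h1]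
        apply LinearMap.ext
        intro x
        rw [Module.algebraMap_end_apply]
        rfl
      change QOp W X X 0 ((algebraMap ℚ (Module.End W.K (W.H X))) r)
      rw [h]
      exact QOp.smul r (rop_iff.1 rop_opAlg.one) }

lemma mem_E0 {T : Module.End W.K (W.H X)} : T ∈ E0 W X ↔ QOp W X X 0 T := Iff.rfl

lemma nondeg_E0 (hD : HomEqNum W (X.prod X)) {T : Module.End W.K (W.H X)} (hT : QOp W X X 0 T)
    (h : ∀ S, QOp W X X 0 S →
      LinearMap.trace W.K (W.H X) (par (W.isInternal X) * (S * T)) = 0) : T = 0 := by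
  have h' : ∀ S ∈ KOp W X X 0,
      LinearMap.trace W.K (W.H X) (par (W.isInternal X) * (S * T)) = 0 := by
    intro S hS
    induction hS using Submodule.span_induction with
    | mem S hS =>
      obtain ⟨p, hp, z, hz, rfl⟩ := hS
      exact h _ (QOp.gen hp hz)
    | zero => rw [zero_mul, mul_zero, map_zero]
    | add S S' _ _ h1 h2 => rw [add_mul, mul_add, map_add, h1, h2, add_zero]
    | smul c S _ h1 => rw [smul_mul_assoc, mul_smul_comm, map_smul, h1, smul_zero]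
  obtain ⟨γ, hγ, rfl⟩ := mem_KOp_iff.1 hT.kop
  rw [add_zero] at hγ
  have h0 : γ = 0 := by
    apply zero_of_homEqNum hD hγ
    intro j g hg
    by_cases hj : j = X.dim
    · subst hj
      have h1 := span_map (swap X X) hg
      obtain ⟨q, hq⟩ := span_gr' h1
      rw [span_comm hγ, ← tr_swap (g * γ), map_mul (W.map (swap X X)), tr_mul_eq_trace hq,
        Mot.map_swap_swap, mul_assoc]
      apply h'
      rw [mem_KOp_iff]
      exact ⟨_, by rw [add_zero]; exact h1, rfl⟩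
    · refine tr_span_ne ?_ hγ hg
      rw [dim_prod]; push_cast; omega
  rw [h0, corr_zero]

/-- Regularity of correspondences to arbitrary varieties. -/
lemma exists_reg (hD : HomEqNum W (X.prod X)) {d : ℤ} {c : W.H X →ₗ[W.K] W.H Y}
    (hc : QOp W X Y d c) :
    ∃ δ₀, QOp W Y X (-d) δ₀ ∧ ∀ δ ∈ KOp W Y X (-d), δ ∘ₗ (c - c ∘ₗ δ₀ ∘ₗ c) = 0 := by
  let _ := ratAlg W X
  have : IsScalarTower ℚ W.K (Module.End W.K (W.H X)) :=
    IsScalarTower.of_algebraMap_eq (fun _ => rfl)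
  let J : Ideal (E0 W X) :=
    { carrier := {T | ∃ δ, QOp W Y X (-d) δ ∧ (T : Module.End W.K (W.H X)) = δ ∘ₗ c}
      add_mem' := by
        rintro S T ⟨δ, hδ, h⟩ ⟨δ', hδ', h'⟩
        exact ⟨δ + δ', hδ.add hδ', by rw [LinearMap.add_comp, ← h, ← h']; rfl⟩
      zero_mem' := ⟨0, QOp.zero _, by rw [LinearMap.zero_comp]; rfl⟩
      smul_mem' := by
        rintro S T ⟨δ, hδ, h⟩
        have h1 : QOp W Y X (-d + 0) ((S : Module.End W.K (W.H X)) ∘ₗ δ) :=
          QOp.comp (mem_E0.1 S.2) hδ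
        rw [add_zero] at h1
        exact ⟨_, h1, by rw [LinearMap.comp_assoc, ← h]; rfl⟩ }
  have hcomm : ∀ T ∈ E0 W X, Commute (par (W.isInternal X)) T := fun T hT =>
    par_aop (mem_EAlg.2 (aop_of (mem_E0.1 hT).kop))
  obtain ⟨f, ⟨δ₀, hδ₀, hf⟩, hJ⟩ := exists_right_identityQ (E0 W X)
    (LinearMap.trace W.K (W.H X) ∘ₗ LinearMap.mulLeft W.K (par (W.isInternal X)))
    (fun T hT => rop_str T (rop_iff.2 (mem_E0.1 hT)))
    (fun T hT hn => by
      obtain ⟨n, hn⟩ := hn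
      apply trace_eq_zero_of_nil
      exact ⟨n, by rw [LinearMap.mulLeft_apply, (hcomm T hT).mul_pow, hn, mul_zero]⟩)
    (fun T hT h => nondeg_E0 hD (mem_E0.1 hT) (fun S hS => h S hS)) J
  refine ⟨δ₀, hδ₀, fun δ hδ => ?_⟩
  induction hδ using Submodule.span_induction with
  | mem δ hδ =>
    obtain ⟨p, hp, z, hz, rfl⟩ := hδ
    have hδ : QOp W Y X (-d) (W.corr (W.cl _ z)) := QOp.gen hp hz
    have hm : (W.corr (W.cl _ z)) ∘ₗ c ∈ E0 W X := by
      have h1 := QOp.comp hδ hc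
      rw [add_neg_cancel] at h1
      exact h1
    have h1 := hJ ⟨_, hm⟩ ⟨_, hδ, rfl⟩
    have h2 : ((W.corr (W.cl _ z)) ∘ₗ c) * (f : Module.End W.K (W.H X)) =
        (W.corr (W.cl _ z)) ∘ₗ c :=
      congrArg (fun x : E0 W X => (x : Module.End W.K (W.H X))) h1
    rw [hf] at h2
    rw [LinearMap.comp_sub, sub_eq_zero]
    exact h2.symm
  | zero => rw [LinearMap.zero_comp]
  | add δ δ' _ _ h h' => rw [LinearMap.add_comp, h, h', add_zero]
  | smul r δ _ h => rw [LinearMap.smul_comp, h, smul_zero]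

/-- A correspondence killed by the correspondences in the other direction. -/
lemma numTriv_of_killed' {d : ℤ} {γ : W.H (X.prod Y)}
    (hγ : γ ∈ spanCycles W (X.prod Y) (X.dim + d))
    (h : ∀ δ ∈ KOp W Y X (-d), δ ∘ₗ W.corr γ = 0) : NumTriv W _ γ := by
  intro j g hg
  by_cases hj : j = Y.dim - d
  · subst hj
    rw [span_comm hγ]
    conv_lhs => rw [kunneth_sum γ]
    rw [Finset.mul_sum, map_sum]
    apply Finset.sum_eq_zero
    intro l _
    rw [← mul_assoc, ← W.tr_push, ← corr_apply]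
    set b := Module.finBasis W.K (W.H X) l
    obtain ⟨δ, hδ, -, hadj⟩ := adj_num hg
    rw [hadj]
    obtain ⟨a, ha⟩ := exists_dual ((Module.finBasis W.K (W.H X)).coord l)
    rw [ha, sl_mulLeft, ← span_comm hγ, ← corr_apply]
    have h1 : W.corr δ ∘ₗ W.corr γ = 0 := h _ (mem_KOp_iff.2 ⟨δ, by
      rw [show (Y.dim : ℤ) + -d = Y.dim - d by ring]; exact hδ, rfl⟩)
    have h2 : W.corr δ (W.corr γ a) = 0 := congrArg (fun F => F a) h1
    rw [h2, mul_zero, map_zero]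
  · refine tr_span_ne ?_ hγ hg
    rw [dim_prod]; push_cast; omega

/-- The correspondences of degree `d` which factor through members of `𝒳`. -/
def Fac (W : WeilCohomology.{u, v} ops) (𝒳 : Set 𝒱.Obj) (Y Z : 𝒱.Obj) (d : ℤ) :
    Submodule W.K (W.H Y →ₗ[W.K] W.H Z) :=
  Submodule.span W.K {φ | ∃ X ∈ 𝒳, ∃ d₁ d₂ : ℤ, d₁ + d₂ = d ∧ ∃ δ ∈ KOp W Y X d₁,
    ∃ a ∈ KOp W X Z d₂, φ = a ∘ₗ δ}

variable {𝒳 : Set 𝒱.Obj}

lemma fac_le {d : ℤ} {φ : W.H Y →ₗ[W.K] W.H Z} (h : φ ∈ Fac W 𝒳 Y Z d) : φ ∈ KOp W Y Z d := by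
  induction h using Submodule.span_induction with
  | mem φ h =>
    obtain ⟨X, -, d₁, d₂, hd, δ, hδ, a, ha, rfl⟩ := h
    exact kcomp ha hδ hd
  | zero => exact Submodule.zero_mem _
  | add _ _ _ _ h h' => exact Submodule.add_mem _ h h'
  | smul c _ _ h => exact Submodule.smul_mem _ _ h

/-- The generated part is cut out by a projector which factors through members of `𝒳`. -/
theorem core (h𝒳 : ∀ X ∈ 𝒳, ∀ X' ∈ 𝒳, HomEqNum W (X.prod X')) (Y : 𝒱.Obj) :
    ∃ e ∈ Fac W 𝒳 Y Y 0, QOp W Y Y 0 e ∧ e ∘ₗ e = e ∧ ∀ X ∈ 𝒳, ∀ (d : ℤ), ∀ a ∈ KOp W X Y d,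
      ∀ δ ∈ KOp W Y X (-d), δ ∘ₗ (a - e ∘ₗ a) = 0 := by
  classical
  -- a projector of maximal rank
  let P : ℕ → Prop := fun n => ∃ e ∈ Fac W 𝒳 Y Y 0, QOp W Y Y 0 e ∧ e ∘ₗ e = e ∧
    Module.finrank W.K (LinearMap.range e) = n
  have hP0 : P 0 := ⟨0, Submodule.zero_mem _, QOp.zero _, LinearMap.zero_comp _, by
    rw [LinearMap.range_zero, finrank_bot]⟩
  obtain ⟨n, ⟨e, he, heq, hee, hn⟩, hmax⟩ : ∃ n, P n ∧ ∀ m, P m → m ≤ n := by
    refine ⟨Nat.findGreatest P (Module.finrank W.K (W.H Y)), ?_, ?_⟩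
    · exact Nat.findGreatest_spec (P := P) (Nat.zero_le _) hP0
    · rintro m ⟨e, he, heq, hee, hm⟩
      apply Nat.le_findGreatest
      · rw [← hm]; exact Submodule.finrank_le _
      · exact ⟨e, he, heq, hee, hm⟩
  refine ⟨e, he, heq, hee, fun X hX d a ha => ?_⟩
  induction ha using Submodule.span_induction with
  | zero => intro δ _; rw [LinearMap.comp_zero, sub_zero, LinearMap.comp_zero]
  | add a a' _ _ h h' =>
    intro δ hδ
    have h1 : a + a' - e ∘ₗ (a + a') = (a - e ∘ₗ a) + (a' - e ∘ₗ a') := by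
      rw [LinearMap.comp_add]; abel
    rw [h1, LinearMap.comp_add, h δ hδ, h' δ hδ, add_zero]
  | smul r a _ h =>
    intro δ hδ
    have h1 : r • a - e ∘ₗ (r • a) = r • (a - e ∘ₗ a) := by
      rw [LinearMap.comp_smul, smul_sub]
    rw [h1, LinearMap.comp_smul, h δ hδ, smul_zero]
  | mem a ha =>
  obtain ⟨p₀, hp₀, z₀, hz₀, rfl⟩ := ha
  have haq : QOp W X Y d (W.corr (W.cl _ z₀)) := QOp.gen hp₀ hz₀
  intro δ hδ
  by_contra hne
  set a := W.corr (W.cl _ z₀) with hadef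
  set c := a - e ∘ₗ a with hcdef
  have hcq : QOp W X Y d c := haq.sub (by
    have := QOp.comp heq haq
    rwa [add_zero] at this)
  have hc : c ∈ KOp W X Y d := hcq.kop
  have hec : e ∘ₗ c = 0 := by
    rw [hcdef, LinearMap.comp_sub, ← LinearMap.comp_assoc, hee, sub_self]
  obtain ⟨δ₀, hδ₀q, hreg⟩ := exists_reg (h𝒳 X hX X hX) hcq
  have hδ₀ : δ₀ ∈ KOp W Y X (-d) := hδ₀q.kop
  set q := δ₀ ∘ₗ c with hqdef
  have hqq : q ∘ₗ q = q := by
    have h1 := hreg δ₀ hδ₀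
    rw [LinearMap.comp_sub, sub_eq_zero] at h1
    exact h1.symm
  have hq0 : q ≠ 0 := by
    intro h0
    apply hne
    have h1 := hreg δ hδ
    have h2 : c ∘ₗ δ₀ ∘ₗ c = 0 := by
      change c ∘ₗ q = 0
      rw [h0, LinearMap.comp_zero]
    rwa [h2, sub_zero] at h1
  -- the complementary projector
  set f : W.H Y →ₗ[W.K] W.H Y := c ∘ₗ (q ∘ₗ (δ₀ - δ₀ ∘ₗ e)) with hfdef
  have hδeq : QOp W Y X (-d) (δ₀ - δ₀ ∘ₗ e) := hδ₀q.sub (by
    have := QOp.comp hδ₀q heq
    rwa [zero_add] at this)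
  have hqq0 : QOp W X X 0 q := by
    have := QOp.comp hδ₀q hcq
    rwa [add_neg_cancel] at this
  have hqδ : QOp W Y X (-d) (q ∘ₗ (δ₀ - δ₀ ∘ₗ e)) := by
    have := QOp.comp hqq0 hδeq
    rwa [add_zero] at this
  have hfq : QOp W Y Y 0 f := by
    have := QOp.comp hcq hqδ
    rwa [neg_add_cancel] at this
  have hf : f ∈ Fac W 𝒳 Y Y 0 :=
    Submodule.subset_span ⟨X, hX, -d, d, by ring, q ∘ₗ (δ₀ - δ₀ ∘ₗ e), hqδ.kop, c, hc, rfl⟩
  have hef : e ∘ₗ f = 0 := by
    rw [hfdef, ← LinearMap.comp_assoc, hec, LinearMap.zero_comp]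
  have hde : (δ₀ - δ₀ ∘ₗ e) ∘ₗ e = 0 := by
    rw [LinearMap.sub_comp, LinearMap.comp_assoc, hee, sub_self]
  have hfe : f ∘ₗ e = 0 := by
    rw [hfdef, LinearMap.comp_assoc, LinearMap.comp_assoc, hde, LinearMap.comp_zero,
      LinearMap.comp_zero]
  have hdc : (δ₀ - δ₀ ∘ₗ e) ∘ₗ c = q := by
    rw [LinearMap.sub_comp, LinearMap.comp_assoc, hec, LinearMap.comp_zero, sub_zero]
  have hfc : f ∘ₗ c = c ∘ₗ q := by
    rw [hfdef, LinearMap.comp_assoc, LinearMap.comp_assoc, hdc, hqq]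
  have hff : f ∘ₗ f = f := by
    have h1 : f ∘ₗ f = (f ∘ₗ c) ∘ₗ (q ∘ₗ (δ₀ - δ₀ ∘ₗ e)) := rfl
    rw [h1, hfc, LinearMap.comp_assoc, ← LinearMap.comp_assoc _ q q, hqq]
  have hf0 : f ≠ 0 := by
    intro h0
    apply hq0
    rw [h0, LinearMap.zero_comp] at hfc
    calc q = q ∘ₗ q := hqq.symm
      _ = δ₀ ∘ₗ (c ∘ₗ q) := by rw [hqdef, LinearMap.comp_assoc]
      _ = 0 := by rw [← hfc, LinearMap.comp_zero]
  have hidem : (e + f) ∘ₗ (e + f) = e + f := by
    rw [LinearMap.add_comp, LinearMap.comp_add, LinearMap.comp_add, hee, hef, hfe, hff, add_zero,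
      zero_add]
  have h1 := hmax _ ⟨e + f, Submodule.add_mem _ he hf, heq.add hfq, hidem, rfl⟩
  have hle : LinearMap.range e ≤ LinearMap.range (e + f) := by
    rintro _ ⟨x, rfl⟩
    refine ⟨e x, ?_⟩
    have h2 : (e + f) ∘ₗ e = e := by rw [LinearMap.add_comp, hee, hfe, add_zero]
    exact congrArg (fun F => F x) h2
  have heqr := Submodule.eq_of_le_of_finrank_le hle (by rw [hn]; exact h1)
  apply hf0
  apply LinearMap.ext
  intro x
  have h2 : f x ∈ LinearMap.range (e + f) := by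
    refine ⟨f x, ?_⟩
    have h3 : (e + f) ∘ₗ f = f := by rw [LinearMap.add_comp, hef, hff, zero_add]
    exact congrArg (fun F => F x) h3
  rw [← heqr] at h2
  obtain ⟨y, hy⟩ := h2
  have h3 : e (f x) = 0 := congrArg (fun F => F x) hef
  have h4 : e (e y) = e y := congrArg (fun F => F y) hee
  rw [LinearMap.zero_apply, ← hy, ← h4, hy, h3]

end Run7.h43.LT
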