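import Pool.Agent.TH132.P.Defs

/-!
# Defect polynomials: definitions
-/

open CategoryTheory AlgebraicGeometry Polynomial

universe u v

namespace Run7.h43.LT

open Pool.Agent.H914 Pool.Agent.H914.VarClass Pool.Agent.H914.VarClass.Obj
  Pool.Agent.H914.WeilCohomology Pool.Agent.W534 Pool.Agent.TH132.P

/-- The number of the pairs `(α, β)` of a root `α` of `P` and a root `β` of `Q` with
`α * β ^ r = x`, counted with the products of the multiplicities. -/
noncomputable def pairs (P Q : ℂ[X]) (r : ℕ) (x : ℂ) : ℕ := open Classical in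
  (P.roots.map fun α => Q.roots.countP fun β => α * β ^ r = x).sum

variable {k : Type u} [Field k] {𝒱 : VarClass k} {ops : CycleOps 𝒱}
  {W : WeilCohomology.{u, v} ops} {p : ℕ}

/-- The characteristic polynomials of the Frobenius endomorphisms of the models of `Y` over finite
fields have integral coefficients. -/
def IntegralPolys (Φ : FrobSystem W p) (σ : W.K →+* ℂ) (Y : 𝒱.Obj) : Prop :=
  ∀ s, 0 < s → ∀ i, ∃ P : ℤ[X], frobPoly Φ σ Y s i = P.map (Int.castRingHom ℂ)

/-- Let `q = card Φ X a`, and let `P_i` be the characteristic polynomial of the Frobenius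
endomorphism of the model of `X` over the field with `q` elements on `H^i(X)`. This is the sum over
all `i + j = 2 c` of the numbers of the pairs of a root `α` of `P_i` and a root `β` of `D j` with
`α * β ^ r = q ^ c` (with multiplicities). -/
noncomputable def crossCount (Φ : FrobSystem W p) (σ : W.K →+* ℂ) (X : 𝒱.Obj) (n : ℕ)
    (D : ℕ → ℂ[X]) (a r c : ℕ) : ℕ :=
  ∑ x ∈ Finset.range (2 * X.dim + 1) ×ˢ Finset.range (n + 1),
    if x.1 + x.2 = 2 * c then pairs (frobPoly Φ σ X a x.1) (D x.2) r ((card Φ X a : ℂ) ^ c) else 0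

/-- The polynomials `D j` are monic and divide, in the ring of polynomials with integral
coefficients, the characteristic polynomials of the Frobenius endomorphism of the model of `Y` over
the field with `card Φ Y t` elements on `H^j(Y)`. -/
def DividePolys (Φ : FrobSystem W p) (σ : W.K →+* ℂ) (Y : 𝒱.Obj) (t : ℕ) (D : ℕ → ℤ[X]) : Prop :=
  0 < t ∧ ∀ j, (D j).Monic ∧
    ∃ P : ℤ[X], frobPoly Φ σ Y t j = P.map (Int.castRingHom ℂ) ∧ D j ∣ P

/-- The polynomials `D j`, over the field with `card Φ Y t` elements, give the defects in the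
formula of Tate for all products `X × Y`, for `X` in `𝒳`: for all `c ≤ dim (X × Y)` the defect is the
number of the pairs `(α, β)` of an eigenvalue `α` of the Frobenius endomorphism of `X` over a
sufficiently large finite field `F` on `H^i(X)` and of a root `β` of `D j`, with `i + j = 2 c` and
`α * β ^ r = q ^ c`, where `q` is the number of elements of `F` and `r` the degree of `F` over the
field with `card Φ Y t` elements. -/
def GivesDefects (Φ : FrobSystem W p) (σ : W.K →+* ℂ) (𝒳 : Set 𝒱.Obj) (Y : 𝒱.Obj) (t : ℕ)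
    (D : ℕ → ℤ[X]) : Prop :=
  ∀ X ∈ 𝒳, ∀ c ≤ (X.prod Y).dim, ∃ δ, PoleDefect Φ σ (X.prod Y) c δ ∧
    ∃ m, 0 < m ∧ ∀ a r, 0 < a → 0 < r → m ∣ r → a * Φ.e X = r * (t * Φ.e Y) →
      crossCount Φ σ X (2 * Y.dim) (fun j => (D j).map (Int.castRingHom ℂ)) a r c = δ

/-- The formula of Tate for the order of the pole of the zeta function holds for `X × Y` in all
codimensions. -/
def PoleTimes (Φ : FrobSystem W p) (σ : W.K →+* ℂ) (X Y : 𝒱.Obj) : Prop :=
  ∀ c ≤ (X.prod Y).dim, PoleFormula Φ σ (X.prod Y) c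

/-- All eigenvalues of Frobenius on the cohomology of `X'` occur, up to powers of the number of
elements of the finite field and over large finite fields, on the cohomology of members of `𝒳`. -/
def EigenvaluesAmong (Φ : FrobSystem W p) (σ : W.K →+* ℂ) (𝒳 : Set 𝒱.Obj) (X' : 𝒱.Obj) : Prop :=
  ∀ s i α', 0 < s → (frobPoly Φ σ X' s i).IsRoot α' →
    ∃ X ∈ 𝒳, ∃ a r l α m m', 0 < a ∧ 0 < r ∧ a * Φ.e X = r * (s * Φ.e X') ∧
      (frobPoly Φ σ X a l).IsRoot α ∧
      α' ^ r * (card Φ X a : ℂ) ^ (m : ℕ) = α * (card Φ X a : ℂ) ^ (m' : ℕ)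

/-- All eigenvalues `β` of Frobenius on the cohomology of `Y` are of the form `q ^ c / α` for
eigenvalues `α` of Frobenius on the cohomology of members of `𝒳` and integers `c ≥ 0`, over large
finite fields; `q` is the number of elements. -/
def DualEigenvaluesAmong (Φ : FrobSystem W p) (σ : W.K →+* ℂ) (𝒳 : Set 𝒱.Obj) (Y : 𝒱.Obj) :
    Prop :=
  ∀ s j β, 0 < s → (frobPoly Φ σ Y s j).IsRoot β →
    ∃ X ∈ 𝒳, ∃ a r i α c, 0 < a ∧ 0 < r ∧ a * Φ.e X = r * (s * Φ.e Y) ∧
      (frobPoly Φ σ X a i).IsRoot α ∧ α * β ^ r = (card Φ X a : ℂ) ^ (c : ℕ)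

end Run7.h43.LT
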