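import Mathlib
import Pool.Agent.Y136.UB.GenEig

/-!
# Adapted bases: linear algebra
-/

open Module Polynomial

namespace Run7.h43.LT

variable {K V : Type*} [Field K] [AddCommGroup V] [Module K V]

/-- Coordinates of the elements of one member of an independent family. -/
lemma repr_zero {ι κ : Type*} {U : κ → Submodule K V} (hU : iSupIndep U) (b : Basis ι K V)
    {t : ι → κ} (hb : ∀ i, b i ∈ U (t i)) {t₀ : κ} {x : V} (hx : x ∈ U t₀) {i : ι}
    (hi : t i ≠ t₀) : b.repr x i = 0 := by
  classical
  set f := b.repr x with hf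
  have hsum : (f.sum fun i c => c • b i) = x := b.linearCombination_repr x
  set g := f.filter (fun i => t i ≠ t₀) with hg
  set h := f.filter (fun i => ¬ t i ≠ t₀) with hh
  have hgh : g + h = f := Finsupp.filter_add_filter_not f _
  have hgm : Finsupp.linearCombination K b g ∈ ⨆ (j) (_ : j ≠ t₀), U j := by
    rw [Finsupp.linearCombination_apply]
    refine Submodule.sum_mem _ fun j hj => Submodule.smul_mem _ _ ?_
    have : t j ≠ t₀ := by
      by_contra hcon
      have h0 : g j = 0 := Finsupp.filter_apply_neg _ _ (by simpa using hcon)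
      exact (Finsupp.mem_support_iff.1 hj) h0
    exact Submodule.mem_iSup_of_mem (t j) (Submodule.mem_iSup_of_mem this (hb j))
  have hhm : Finsupp.linearCombination K b h ∈ U t₀ := by
    rw [Finsupp.linearCombination_apply]
    refine Submodule.sum_mem _ fun j hj => Submodule.smul_mem _ _ ?_
    have : t j = t₀ := by
      by_contra hcon
      have h0 : h j = 0 := Finsupp.filter_apply_neg _ _ (by simpa using hcon)
      exact (Finsupp.mem_support_iff.1 hj) h0
    rw [← this]; exact hb j
  have hx2 : Finsupp.linearCombination K b g + Finsupp.linearCombination K b h = x := by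
    rw [← map_add, hgh]; exact b.linearCombination_repr x
  have hgU : Finsupp.linearCombination K b g ∈ U t₀ := by
    have : Finsupp.linearCombination K b g = x - Finsupp.linearCombination K b h := by
      rw [← hx2]; abel
    rw [this]; exact Submodule.sub_mem _ hx hhm
  have h0 : Finsupp.linearCombination K b g = 0 :=
    (Submodule.mem_bot K).1 ((hU t₀).le_bot ⟨hgU, hgm⟩)
  have hg0 : g = 0 := by
    have h1 := b.linearIndependent
    rw [linearIndependent_iff] at h1
    exact h1 g h0
  have h2 : g i = f i := Finsupp.filter_apply_pos _ _ hi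
  rw [← h2, hg0]
  rfl

/-- The dimension of a subspace spanned by a part of a basis. -/
lemma finrank_eq_card {ι : Type*} [Fintype ι] (b : Basis ι K V) (S : Submodule K V)
    (I : Finset ι) (h1 : ∀ i ∈ I, b i ∈ S) (h2 : ∀ x ∈ S, ∀ i, i ∉ I → b.repr x i = 0) :
    finrank K S = I.card := by
  classical
  have hS : S = Submodule.span K (Set.range fun i : I => b i) := by
    apply le_antisymm
    · intro x hx
      rw [← b.sum_repr x]
      refine Submodule.sum_mem _ fun i _ => ?_
      by_cases hi : i ∈ I
      · exact Submodule.smul_mem _ _ (Submodule.subset_span ⟨⟨i, hi⟩, rfl⟩)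
      · rw [h2 x hx i hi, zero_smul]; exact Submodule.zero_mem _
    · rw [Submodule.span_le]
      rintro _ ⟨i, rfl⟩
      exact h1 i i.2
  have h3 := finrank_span_eq_card (b.linearIndependent.comp (fun i : I => (i : ι))
    Subtype.val_injective)
  rw [hS]
  refine h3.trans ?_
  simp

/-- An adapted basis: homogeneous generalised eigenvectors in the kernel or in the image of a
projector. -/
theorem exists_adapted [FiniteDimensional K V] [IsAlgClosed K] {gr : ℕ → Submodule K V}
    (hgr : ⨆ n, gr n = ⊤) (f e : End K V) (hf : ∀ n, ∀ x ∈ gr n, f x ∈ gr n)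
    (he : ∀ n, ∀ x ∈ gr n, e x ∈ gr n) (hee : ∀ x, e (e x) = e x) (hfe : ∀ x, f (e x) = e (f x)) :
    ∃ (b : Basis (Fin (finrank K V)) K V) (deg : Fin (finrank K V) → ℕ)
      (μ : Fin (finrank K V) → K) (ε : Fin (finrank K V) → Bool),
      ∀ j, b j ∈ gr (deg j) ∧ b j ∈ f.maxGenEigenspace (μ j) ∧
        e (b j) = if ε j then b j else 0 := by
  classical
  let gr' : ℕ → Submodule K V := fun n =>
    if Even n then gr (n / 2) ⊓ LinearMap.ker e else gr (n / 2) ⊓ LinearMap.range e
  have h0 : ∀ n, gr' (2 * n) = gr n ⊓ LinearMap.ker e := by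
    intro n
    have : Even (2 * n) := even_two_mul n
    simp only [gr', if_pos this]
    rw [show 2 * n / 2 = n by omega]
  have h1 : ∀ n, gr' (2 * n + 1) = gr n ⊓ LinearMap.range e := by
    intro n
    have : ¬ Even (2 * n + 1) := by simp
    simp only [gr', if_neg this]
    rw [show (2 * n + 1) / 2 = n by omega]
  have hcase : ∀ n : ℕ, (∃ m, n = 2 * m) ∨ ∃ m, n = 2 * m + 1 := fun n => by
    rcases Nat.even_or_odd' n with ⟨m, h | h⟩
    · exact Or.inl ⟨m, h⟩
    · exact Or.inr ⟨m, h⟩
  have htop : ⨆ n, gr' n = ⊤ := by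
    rw [eq_top_iff, ← hgr, iSup_le_iff]
    intro n x hx
    have e1 : x = (x - e x) + e x := by abel
    rw [e1]
    refine Submodule.add_mem _ ?_ ?_
    · refine Submodule.mem_iSup_of_mem (2 * n) ?_
      rw [h0]
      refine ⟨Submodule.sub_mem _ hx (he n x hx), ?_⟩
      change e (x - e x) = 0
      rw [map_sub, hee, sub_self]
    · refine Submodule.mem_iSup_of_mem (2 * n + 1) ?_
      rw [h1]
      exact ⟨he n x hx, ⟨x, rfl⟩⟩
  have hst : ∀ n, ∀ x ∈ gr' n, f x ∈ gr' n := by
    intro n x hx
    rcases hcase n with ⟨m, rfl⟩ | ⟨m, rfl⟩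
    · rw [h0] at hx ⊢
      refine ⟨hf m x hx.1, ?_⟩
      have h2 : e x = 0 := hx.2
      change e (f x) = 0
      rw [← hfe, h2, map_zero]
    · rw [h1] at hx ⊢
      obtain ⟨hx1, y, rfl⟩ := hx
      exact ⟨hf m _ hx1, ⟨f y, (hfe y).symm⟩⟩
  obtain ⟨b, deg, μ, hb⟩ := Pool.Agent.Y136.UB.exists_gen_basis htop f hst
  refine ⟨b, fun j => deg j / 2, μ, fun j => decide (deg j % 2 = 1), fun j => ?_⟩
  obtain ⟨hb1, hb2⟩ := hb j
  rcases hcase (deg j) with ⟨m, hm⟩ | ⟨m, hm⟩
  · rw [hm, h0] at hb1
    have h2 : deg j / 2 = m := by omega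
    have h3 : ¬ deg j % 2 = 1 := by omega
    refine ⟨?_, hb2, ?_⟩
    · change b j ∈ gr (deg j / 2)
      rw [h2]; exact hb1.1
    · change e (b j) = if decide (deg j % 2 = 1) = true then b j else 0
      rw [if_neg (by simpa using h3)]
      exact hb1.2
  · rw [hm, h1] at hb1
    have h2 : deg j / 2 = m := by omega
    have h3 : deg j % 2 = 1 := by omega
    obtain ⟨hb3, y, hy⟩ := hb1
    refine ⟨?_, hb2, ?_⟩
    · change b j ∈ gr (deg j / 2)
      rw [h2]; exact hb3
    · change e (b j) = if decide (deg j % 2 = 1) = true then b j else 0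
      rw [if_pos (by simpa using h3), ← hy, hee]

/-- Coordinates of the elements of the kernel of a projector. -/
lemma repr_ker {ι : Type*} (b : Basis ι K V) {e : End K V} {ε : ι → Bool}
    (he : ∀ i, e (b i) = if ε i then b i else 0) {x : V} (hx : e x = 0) {i : ι} (hi : ε i = true) :
    b.repr x i = 0 := by
  classical
  have h1 : b.coord i ∘ₗ e = b.coord i := by
    apply b.ext
    intro j
    rw [LinearMap.comp_apply, he]
    by_cases hj : ε j = true
    · rw [if_pos hj]
    · rw [if_neg hj, map_zero, Basis.coord_apply, Basis.repr_self,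
        Finsupp.single_eq_of_ne (by rintro rfl; exact hj hi)]
  have h2 := congrArg (fun F => F x) h1
  simp only [LinearMap.comp_apply, hx, map_zero] at h2
  exact h2.symm

/-- The characteristic polynomial on a stable subspace spanned by a part of a basis of generalised
eigenvectors. -/
lemma charpoly_sub {ι : Type*} [Fintype ι] [FiniteDimensional K V] [IsAlgClosed K]
    (f : End K V) (b : Basis ι K V) {μ : ι → K}
    (hb : ∀ i, b i ∈ f.maxGenEigenspace (μ i)) {S : Submodule K V} (I : Finset ι)
    (h1 : ∀ i ∈ I, b i ∈ S) (h2 : ∀ x ∈ S, ∀ i, i ∉ I → b.repr x i = 0)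
    (h : ∀ x ∈ S, f x ∈ S) : (f.restrict h).charpoly = ∏ i ∈ I, (X - C (μ i)) := by
  classical
  have h3 : (f.restrict h).charpoly.roots = I.val.map μ := by
    ext c
    have h4 : finrank K (Module.End.maxGenEigenspace (f.restrict h) c) =
        finrank K (S ⊓ f.genEigenspace c ⊤ : Submodule K V) := by
      rw [Submodule.inf_genEigenspace f S (k := ⊤) (μ := c) h]
      exact LinearEquiv.finrank_eq (Submodule.equivMapOfInjective _
        (Submodule.subtype_injective _) _)
    rw [count_roots, ← LinearMap.finrank_maxGenEigenspace_eq, h4,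
      finrank_eq_card b _ (I.filter fun i => μ i = c)]
    · rw [Multiset.count_map, Finset.card_def, Finset.filter_val]
      congr 1
      exact Multiset.filter_congr (fun i _ => by rw [eq_comm (a := c)])
    · intro i hi
      obtain ⟨h5, h6⟩ := Finset.mem_filter.1 hi
      refine ⟨h1 i h5, ?_⟩
      rw [← h6]; exact hb i
    · rintro x ⟨hx1, hx2⟩ i hi
      by_cases h5 : i ∈ I
      · refine repr_zero (Module.End.independent_maxGenEigenspace f) b hb hx2 ?_
        intro h6
        exact hi (Finset.mem_filter.2 ⟨h5, h6⟩)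
      · exact h2 x hx1 i h5
  have h4 := (IsAlgClosed.splits (f.restrict h).charpoly).eq_prod_roots_of_monic
    (LinearMap.charpoly_monic _)
  rw [h4, h3, Multiset.map_map]
  rfl

/-- The characteristic polynomial on a homogeneous part, from an adapted basis. -/
lemma charpoly_restrict {ι : Type*} [Fintype ι] [DecidableEq ι]
    [FiniteDimensional K V] [IsAlgClosed K] {gr : ℕ → Submodule K V} (hgr : iSupIndep gr)
    (f : End K V) (b : Basis ι K V) {deg : ι → ℕ} {μ : ι → K} (hd : ∀ i, b i ∈ gr (deg i))
    (hb : ∀ i, b i ∈ f.maxGenEigenspace (μ i)) {j : ℕ} (h : ∀ x ∈ gr j, f x ∈ gr j) :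
    (f.restrict h).charpoly = ∏ i ∈ Finset.univ.filter (fun i => deg i = j), (X - C (μ i)) := by
  classical
  have h1 : (f.restrict h).charpoly.roots =
      (Finset.univ.filter (fun i => deg i = j)).val.map μ := by
    ext c
    have h2 : finrank K (Module.End.maxGenEigenspace (f.restrict h) c) =
        finrank K (gr j ⊓ f.genEigenspace c ⊤ : Submodule K V) := by
      rw [Submodule.inf_genEigenspace f (gr j) (k := ⊤) (μ := c) h]
      exact LinearEquiv.finrank_eq (Submodule.equivMapOfInjective _
        (Submodule.subtype_injective _) _)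
    rw [count_roots, ← LinearMap.finrank_maxGenEigenspace_eq, h2,
      finrank_eq_card b _ (Finset.univ.filter fun i => deg i = j ∧ μ i = c)]
    · rw [Multiset.count_map, Finset.card_def, Finset.filter_val, Finset.filter_val,
        Multiset.filter_filter]
      congr 1
      exact Multiset.filter_congr (fun i _ => by rw [and_comm, eq_comm (a := c)])
    · intro i hi
      obtain ⟨h3, h4⟩ := (Finset.mem_filter.1 hi).2
      refine ⟨by rw [← h3]; exact hd i, ?_⟩
      rw [← h4]; exact hb i
    · rintro x ⟨hx1, hx2⟩ i hi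
      by_cases h3 : deg i = j
      · refine repr_zero (Module.End.independent_maxGenEigenspace f) b hb hx2 ?_
        intro h4
        exact hi (Finset.mem_filter.2 ⟨Finset.mem_univ _, h3, h4⟩)
      · exact repr_zero hgr b hd hx1 h3
  have h2 := (IsAlgClosed.splits (f.restrict h).charpoly).eq_prod_roots_of_monic
    (LinearMap.charpoly_monic _)
  rw [h2, h1, Multiset.map_map]
  rfl

end Run7.h43.LT
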