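import Pool.Agent.Run7.h43.LT.Sys
import Pool.Agent.Run7.h43.LT.Lin
import Pool.Agent.Run7.h43.LT.Defs

/-!
# Frobenius endomorphisms and adapted bases
-/

open CategoryTheory AlgebraicGeometry Polynomial

universe u v

namespace Run7.h43.LT

open Pool.Agent.H914 Pool.Agent.H914.VarClass Pool.Agent.H914.VarClass.Obj
  Pool.Agent.H914.WeilCohomology Pool.Agent.R908 Run7.h43.TF
open Pool.Agent.W534 hiding iter

variable {k : Type u} [Field k] {𝒱 : VarClass k} {ops : CycleOps 𝒱}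
  {W : WeilCohomology.{u, v} ops} {X Y Z : 𝒱.Obj} {p : ℕ} (Φ : FrobSystem W p)

/-! ### Products -/

lemma levels (X Y : 𝒱.Obj) : ∃ A B B' : ℕ, 0 < A ∧ 0 < B ∧ 0 < B' ∧
    A * Φ.e (X.prod Y) = B * Φ.e X ∧ A * Φ.e (X.prod Y) = B' * Φ.e Y ∧
    (∀ s x, frob Φ (X.prod Y) (A * s) (W.map (fst X Y) x) =
      W.map (fst X Y) (frob Φ X (B * s) x)) ∧
    (∀ s y, frob Φ (X.prod Y) (A * s) (W.map (snd X Y) y) =
      W.map (snd X Y) (frob Φ Y (B' * s) y)) := by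
  obtain ⟨a, b, ha, hb, hab, h1⟩ := frob_comm Φ (fst X Y)
  obtain ⟨a', b', ha', hb', hab', h2⟩ := frob_comm Φ (snd X Y)
  refine ⟨a * a', b * a', b' * a, Nat.mul_pos ha ha', Nat.mul_pos hb ha', Nat.mul_pos hb' ha,
    ?_, ?_, ?_, ?_⟩
  · calc a * a' * Φ.e (X.prod Y) = (a * Φ.e (X.prod Y)) * a' := by ring
      _ = b * a' * Φ.e X := by rw [hab]; ring
  · calc a * a' * Φ.e (X.prod Y) = (a' * Φ.e (X.prod Y)) * a := by ring
      _ = b' * a * Φ.e Y := by rw [hab']; ring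
  · intro s x
    have h3 := h1 (a' * s) x
    rw [show a * (a' * s) = a * a' * s by ring, show b * (a' * s) = b * a' * s by ring] at h3
    exact h3
  · intro s y
    have h4 := h2 (a * s) y
    rw [show a' * (a * s) = a * a' * s by ring, show b' * (a * s) = b' * a * s by ring] at h4
    exact h4

lemma frob_mulH (s : ℕ) (x y : W.H Z) : frob Φ Z s (x * y) = frob Φ Z s x * frob Φ Z s y := by
  rw [frob_apply, map_mul]; rfl

/-- The correspondences of degree zero commute with a power of the Frobenius endomorphism. -/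
theorem exists_commute (Y : 𝒱.Obj) : ∃ t, 0 < t ∧ ∀ φ ∈ KOp W Y Y 0, ∀ x,
    frob Φ Y t (φ x) = φ (frob Φ Y t x) := by
  obtain ⟨A, B, B', hA, hB, hB', e1, e2, h1, h2⟩ := levels Φ Y Y
  obtain ⟨t, ht, h3⟩ := exists_span_eig Φ (Y.prod Y) Y.dim
  have hBB : B = B' := by
    have : B * Φ.e Y = B' * Φ.e Y := e1.symm.trans e2
    exact Nat.eq_of_mul_eq_mul_right (Φ.e_pos Y) this
  subst hBB
  refine ⟨B * t, Nat.mul_pos hB ht, fun φ hφ x => ?_⟩
  obtain ⟨γ, hγ, rfl⟩ := mem_KOp_iff.1 hφ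
  rw [add_zero] at hγ
  have h4 : frob Φ (Y.prod Y) (A * t) γ = ((card Φ (Y.prod Y) (A * t) : W.K) ^ Y.dim) • γ :=
    span_eig_mul' Φ (h3 γ hγ) A
  have h5 := Pool.Agent.Y163.frob_push Φ (snd Y Y) (a := A) (b := B) (s := t) e2
    (fun t y => h2 t y) (γ * W.map (fst Y Y) x)
  rw [frob_mulH, h4, h1, smul_mul_assoc, map_smul, smul_smul, ← pow_add, dim_prod] at h5
  have hq : ((card Φ (Y.prod Y) (A * t) : W.K) ^ (Y.dim + Y.dim)) ≠ 0 :=
    pow_ne_zero _ (card_ne Φ _)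
  rw [corr_apply, corr_apply]
  exact smul_right_injective _ hq h5

/-! ### Adapted bases -/

/-- A basis of `H(Z)` of homogeneous generalised eigenvectors of the Frobenius endomorphism. -/
def Adapted {ι : Type*} (Z : 𝒱.Obj) (s : ℕ) (b : Module.Basis ι W.K (W.H Z)) (deg : ι → ℕ)
    (μ : ι → W.K) : Prop :=
  ∀ i, b i ∈ W.gr Z (deg i) ∧ b i ∈ (frob Φ Z s).maxGenEigenspace (μ i)

variable {Φ}

lemma Adapted.pow {ι : Type*} {s : ℕ} {b : Module.Basis ι W.K (W.H Z)} {deg : ι → ℕ}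
    {μ : ι → W.K} (h : Adapted Φ Z s b deg μ) (r : ℕ) :
    Adapted Φ Z (s * r) b deg (fun i => μ i ^ r) := fun i => ⟨(h i).1, by
  have := gen_mono _ _ r (h i).2
  rwa [← frob_mul_eq] at this⟩

lemma Adapted.deg_le {ι : Type*} {s : ℕ} {b : Module.Basis ι W.K (W.H Z)} {deg : ι → ℕ}
    {μ : ι → W.K} (h : Adapted Φ Z s b deg μ) (i : ι) : deg i ≤ 2 * Z.dim := by
  by_contra hcon
  have h1 := (h i).1
  rw [W.gr_eq_bot Z _ (by omega)] at h1
  exact b.ne_zero i ((Submodule.mem_bot _).1 h1)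

lemma gr_indep (Z : 𝒱.Obj) : iSupIndep (W.gr Z) := (W.isInternal Z).submodule_iSupIndep

lemma Adapted.frobPoly_eq [IsAlgClosed W.K] {ι : Type*} [Fintype ι] [DecidableEq ι] {s : ℕ}
    {b : Module.Basis ι W.K (W.H Z)} {deg : ι → ℕ} {μ : ι → W.K} (h : Adapted Φ Z s b deg μ)
    (σ : W.K →+* ℂ) (j : ℕ) : frobPoly Φ σ Z s j =
      ∏ i ∈ Finset.univ.filter (fun i => deg i = j), (Polynomial.X - C (σ (μ i))) := by
  have h1 := charpoly_restrict (gr_indep Z) (frob Φ Z s) b (fun i => (h i).1) (fun i => (h i).2)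
    (j := j) (fun _ hx => W.map_mem _ hx)
  have h2 : (frobOn Φ Z s j).charpoly =
      ∏ i ∈ Finset.univ.filter (fun i => deg i = j), (Polynomial.X - C (μ i)) := h1
  rw [Pool.Agent.W534.frobPoly_eq, h2, Polynomial.map_prod]
  simp

lemma exists_adapted_basis [IsAlgClosed W.K] (Z : 𝒱.Obj) (s : ℕ) {e : Module.End W.K (W.H Z)}
    (he : e ∈ KOp W Z Z 0) (hee : ∀ x, e (e x) = e x)
    (hfe : ∀ x, frob Φ Z s (e x) = e (frob Φ Z s x)) :
    ∃ (b : Module.Basis (Fin (Module.finrank W.K (W.H Z))) W.K (W.H Z))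
      (deg : Fin (Module.finrank W.K (W.H Z)) → ℕ) (μ : Fin (Module.finrank W.K (W.H Z)) → W.K)
      (ε : Fin (Module.finrank W.K (W.H Z)) → Bool),
      Adapted Φ Z s b deg μ ∧ ∀ i, e (b i) = if ε i then b i else 0 := by
  have htop : ⨆ n, W.gr Z n = ⊤ := (W.isInternal Z).submodule_iSup_eq_top
  obtain ⟨b, deg, μ, ε, h⟩ := exists_adapted htop (frob Φ Z s) e
    (fun n x hx => W.map_mem _ hx) (fun n x hx => by
      have h1 := KOp.isHom he (n : ℤ) x (by rw [grZ_natCast]; exact hx)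
      rwa [mul_zero, add_zero, grZ_natCast] at h1) hee hfe
  exact ⟨b, deg, μ, ε, fun i => ⟨(h i).1, (h i).2.1⟩, fun i => (h i).2.2⟩

/-- The basis of the cohomology of a product. -/
lemma exists_prod_basis {ι κ : Type*} [Finite ι] [Finite κ] (b : Module.Basis ι W.K (W.H X))
    (b' : Module.Basis κ W.K (W.H Y)) :
    ∃ B : Module.Basis (ι × κ) W.K (W.H (X.prod Y)), ∀ i j, B (i, j) =
      W.map (fst X Y) (b i) * W.map (snd X Y) (b' j) :=
  ⟨(b.tensorProduct b').map (kappa W X Y), fun i j => by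
    rw [Module.Basis.map_apply, Module.Basis.tensorProduct_apply, kappa_tmul]⟩

/-! ### Complex versions of the definitions -/

/-- The polynomials `D j` are monic divisors of the characteristic polynomials. -/
def CDividePolys (Φ : FrobSystem W p) (σ : W.K →+* ℂ) (Y : 𝒱.Obj) (t : ℕ) (D : ℕ → ℂ[X]) : Prop :=
  0 < t ∧ ∀ j, (D j).Monic ∧ D j ∣ frobPoly Φ σ Y t j

/-- The polynomials `D j` give the defects. -/
def CGivesDefects (Φ : FrobSystem W p) (σ : W.K →+* ℂ) (𝒳 : Set 𝒱.Obj) (Y : 𝒱.Obj) (t : ℕ)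
    (D : ℕ → ℂ[X]) : Prop :=
  ∀ X ∈ 𝒳, ∀ c ≤ (X.prod Y).dim, ∃ δ, Pool.Agent.TH132.P.PoleDefect Φ σ (X.prod Y) c δ ∧
    ∃ m, 0 < m ∧ ∀ a r, 0 < a → 0 < r → m ∣ r → a * Φ.e X = r * (t * Φ.e Y) →
      crossCount Φ σ X (2 * Y.dim) D a r c = δ

end Run7.h43.LT
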