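import Pool.Agent.Run7.h43.LT.Frob
import Pool.Agent.N181.Mod.LinA

/-!
# Integrality of the defect polynomials
-/

open CategoryTheory AlgebraicGeometry Polynomial

universe u v

namespace Run7.h43.LT

open Pool.Agent.H914 Pool.Agent.H914.VarClass Pool.Agent.H914.VarClass.Obj
  Pool.Agent.H914.WeilCohomology Pool.Agent.R908 Run7.h43.TF
open Pool.Agent.W534 hiding iter
open Pool.Agent.N181.Mod (prod_rational trace_pow_eq)

variable {k : Type u} [Field k] {𝒱 : VarClass k} {ops : CycleOps 𝒱}
  {W : WeilCohomology.{u, v} ops} {X Y Z : 𝒱.Obj} {𝒳 : Set 𝒱.Obj} {p : ℕ}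
  {Φ : FrobSystem W p} {σ : W.K →+* ℂ}

lemma rat_poly (hint : IntegralPolys Φ σ Y) {t : ℕ} (ht : 0 < t) (i : ℕ) :
    ∃ P : ℤ[X], (frobOn Φ Y t i).charpoly = P.map (Int.castRingHom W.K) := by
  obtain ⟨P, hP⟩ := hint t ht i
  refine ⟨P, ?_⟩
  apply Polynomial.map_injective σ σ.injective
  rw [← Pool.Agent.W534.frobPoly_eq, hP, Polynomial.map_map]
  congr 1
  exact RingHom.ext_int _ _

lemma coprime_frobOn [IsAlgClosed W.K] (hp : 1 < p) (hRH : RiemannHyp Φ σ Y) {t : ℕ}
    (ht : 0 < t) {i j : ℕ} (hij : i ≠ j) :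
    IsCoprime (frobOn Φ Y t i).charpoly (frobOn Φ Y t j).charpoly := by
  have hq1 : (1 : ℝ) < (card Φ Y t : ℝ) := by
    have : 1 < card Φ Y t := Nat.one_lt_pow (Nat.mul_pos (Φ.e_pos Y) ht).ne' hp
    exact_mod_cast this
  rw [Polynomial.isCoprime_iff_aeval_ne_zero_of_isAlgClosed W.K W.K]
  intro a
  by_contra hcon
  push Not at hcon
  obtain ⟨h1, h2⟩ := hcon
  have hroot : ∀ i, aeval a (frobOn Φ Y t i).charpoly = 0 →
      ‖σ a‖ ^ 2 = (card Φ Y t : ℝ) ^ i := by
    intro i h
    apply hRH t ht i (σ a)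
    rw [Pool.Agent.W534.frobPoly_eq, IsRoot.def, Polynomial.eval_map, Polynomial.eval₂_at_apply,
      ← Polynomial.coe_aeval_eq_eval, h, map_zero]
  have h3 := (hroot i h1).symm.trans (hroot j h2)
  exact hij (pow_right_injective₀ (by linarith) hq1.ne' h3)

lemma kill_frobOn (t i : ℕ) {x : W.H Y} (hx : x ∈ W.gr Y i) :
    aeval (frob Φ Y t) (frobOn Φ Y t i).charpoly x = 0 := by
  have h1 := LinearMap.aeval_self_charpoly (frobOn Φ Y t i)
  have h2 : ∀ P : W.K[X], ((aeval (frobOn Φ Y t i) P ⟨x, hx⟩ : W.gr Y i) : W.H Y) =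
      aeval (frob Φ Y t) P x := by
    intro P
    induction P using Polynomial.induction_on' with
    | add P Q hP hQ =>
      rw [map_add, map_add, LinearMap.add_apply, LinearMap.add_apply, Submodule.coe_add, hP, hQ]
    | monomial n c =>
      have h3 : ∀ n : ℕ, ((((frobOn Φ Y t i) ^ n) ⟨x, hx⟩ : W.gr Y i) : W.H Y) =
          (frob Φ Y t ^ n) x := by
        intro n
        induction n with
        | zero => rfl
        | succ n ih =>
          rw [pow_succ', pow_succ', Module.End.mul_apply, Module.End.mul_apply, ← ih]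
          rfl
      rw [aeval_monomial, aeval_monomial, Module.End.mul_apply, Module.End.mul_apply,
        Module.algebraMap_end_apply, Module.algebraMap_end_apply, Submodule.coe_smul, h3]
  rw [← h2, h1]
  rfl

/-- The projectors onto the degrees are polynomials in Frobenius with rational coefficients. -/
lemma exists_proj [IsAlgClosed W.K] (hp : 1 < p) (hRH : RiemannHyp Φ σ Y)
    (hint : IntegralPolys Φ σ Y) {t : ℕ} (ht : 0 < t) (j : ℕ) :
    ∃ G : ℚ[X], ∀ i, ∀ x ∈ W.gr Y i,
      aeval (frob Φ Y t) (G.map (algebraMap ℚ W.K)) x = if i = j then x else 0 := by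
  classical
  have hP : ∀ i, ∃ P : ℚ[X], (frobOn Φ Y t i).charpoly = P.map (algebraMap ℚ W.K) := by
    intro i
    obtain ⟨P, hP⟩ := rat_poly hint ht i
    refine ⟨P.map (Int.castRingHom ℚ), ?_⟩
    rw [hP, Polynomial.map_map]
    congr 1
    exact RingHom.ext_int _ _
  choose P hP using hP
  have hcop : ∀ i j, i ≠ j → IsCoprime (P i) (P j) := by
    intro i j hij
    have h1 := coprime_frobOn hp hRH ht hij
    rw [hP, hP] at h1
    exact (Polynomial.isCoprime_map _).1 h1
  set A : ℚ[X] := ∏ i ∈ (Finset.range (2 * Y.dim + 1)).filter (fun i => i ≠ j), P i with hA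
  have hAB : IsCoprime (P j) A := by
    rw [hA]
    apply IsCoprime.prod_right
    intro i hi
    exact hcop _ _ (Finset.mem_filter.1 hi).2.symm
  obtain ⟨a, b, hab⟩ := hAB
  refine ⟨b * A, fun i x hx => ?_⟩
  by_cases hij : i = j
  · subst hij
    rw [if_pos rfl]
    have h1 := congrArg (fun Q : ℚ[X] => aeval (frob Φ Y t) (Q.map (algebraMap ℚ W.K)) x) hab
    simp only [Polynomial.map_add, Polynomial.map_mul, Polynomial.map_one, map_add, map_mul,
      map_one, LinearMap.add_apply, Module.End.mul_apply, Module.End.one_apply] at h1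
    rw [← hP, kill_frobOn t i hx, map_zero, zero_add] at h1
    rw [Polynomial.map_mul, map_mul, Module.End.mul_apply]
    exact h1
  · rw [if_neg hij]
    by_cases hi : i < 2 * Y.dim + 1
    · obtain ⟨Q, hQ⟩ := Finset.dvd_prod_of_mem P
        (Finset.mem_filter.2 ⟨Finset.mem_range.2 hi, hij⟩ :
          i ∈ (Finset.range (2 * Y.dim + 1)).filter (fun i => i ≠ j))
      rw [hA, hQ, mul_comm (P i) Q, ← mul_assoc, Polynomial.map_mul, map_mul,
        Module.End.mul_apply, ← hP, kill_frobOn t i hx, map_zero]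
    · rw [W.gr_eq_bot Y i (by omega)] at hx
      rw [(Submodule.mem_bot _).1 hx, map_zero]

lemma qop_pow {ψ : Module.End W.K (W.H Y)} (h : QOp W Y Y 0 ψ) (n : ℕ) : QOp W Y Y 0 (ψ ^ n) := by
  induction n with
  | zero => exact rop_iff.1 rop_opAlg.one
  | succ n ih =>
    have h1 := QOp.comp h ih
    rw [add_zero] at h1
    rw [pow_succ']
    exact h1

lemma qop_aeval {ψ : Module.End W.K (W.H Y)} (h : QOp W Y Y 0 ψ) (G : ℚ[X]) :
    QOp W Y Y 0 (aeval ψ (G.map (algebraMap ℚ W.K))) := by
  induction G using Polynomial.induction_on' with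
  | add P Q hP hQ => rw [Polynomial.map_add, map_add]; exact hP.add hQ
  | monomial n c =>
    rw [Polynomial.map_monomial, aeval_monomial]
    have h1 := (qop_pow h n).smul c
    have h2 : (algebraMap W.K (Module.End W.K (W.H Y))) (algebraMap ℚ W.K c) * ψ ^ n =
        (c : W.K) • ψ ^ n := by
      rw [← Algebra.smul_def]; rfl
    rw [h2]
    exact h1

lemma commute_aeval {F e : Module.End W.K (W.H Y)} (h : Commute F e) (P : W.K[X]) :
    Commute (aeval F P) e := by
  induction P using Polynomial.induction_on' with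
  | add P Q hP hQ => rw [map_add]; exact hP.add_left hQ
  | monomial n c =>
    rw [aeval_monomial]
    exact Commute.mul_left (Algebra.commutes c e) (h.pow_left n)

/-- The power sums are rational. -/
lemma sum_rational [IsAlgClosed W.K] (hp : 1 < p) (hRH : RiemannHyp Φ σ Y)
    (hint : IntegralPolys Φ σ Y) {t : ℕ} (ht : 0 < t) {e : W.H Y →ₗ[W.K] W.H Y}
    (he : QOp W Y Y 0 e) (hee : ∀ x, e (e x) = e x)
    (hfe : ∀ x, frob Φ Y t (e x) = e (frob Φ Y t x)) {ι : Type*} [Fintype ι]
    {b : Module.Basis ι W.K (W.H Y)} {deg : ι → ℕ} {ν : ι → W.K} {ε : ι → Bool}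
    (hb : Adapted Φ Y t b deg ν) (hε : ∀ i, e (b i) = if ε i then b i else 0) (j : ℕ) :
    ∃ χ : ℚ[X], χ.map (algebraMap ℚ W.K) =
      ∏ i ∈ Finset.univ.filter (fun i => deg i = j ∧ ε i = false), (Polynomial.X - C (ν i)) := by
  classical
  set I := Finset.univ.filter (fun i => deg i = j ∧ ε i = false) with hI
  set F := frob Φ Y t with hF
  set S : Submodule W.K (W.H Y) := W.gr Y j ⊓ LinearMap.ker e with hS
  have hFS : ∀ x ∈ S, F x ∈ S := by
    rintro x ⟨hx1, hx2⟩
    refine ⟨W.map_mem _ hx1, ?_⟩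
    change e (F x) = 0
    rw [← hfe]
    have : e x = 0 := hx2
    rw [this, map_zero]
  have hcp := charpoly_sub F b (fun i => (hb i).2) (S := S) I
    (by
      intro i hi
      obtain ⟨-, h1, h2⟩ := Finset.mem_filter.1 hi
      refine ⟨by rw [← h1]; exact (hb i).1, ?_⟩
      change e (b i) = 0
      rw [hε, h2]; rfl)
    (by
      rintro x ⟨hx1, hx2⟩ i hi
      by_cases h1 : deg i = j
      · by_cases h2 : ε i = false
        · exact absurd (Finset.mem_filter.2 ⟨Finset.mem_univ _, h1, h2⟩) hi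
        · exact repr_ker b hε hx2 (by simpa using h2)
      · exact repr_zero (gr_indep Y) b (fun i => (hb i).1) hx1 h1) hFS
  obtain ⟨G, hG⟩ := exists_proj hp hRH hint ht j
  set π := aeval F (G.map (algebraMap ℚ W.K)) with hπ
  have hπq : QOp W Y Y 0 π := qop_aeval (qop_pull _) G
  have hπe : ∀ x, π (e x) = e (π x) := by
    intro x
    have hc : Commute F (e : Module.End W.K (W.H Y)) := LinearMap.ext hfe
    exact congrArg (fun T => T x) (commute_aeval hc (G.map (algebraMap ℚ W.K))).eq
  have hπS : ∀ x, e x = 0 → π x ∈ S := by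
    intro x hx
    refine ⟨?_, ?_⟩
    · refine gr_induction (W.isInternal Y) (p := fun x => π x ∈ W.gr Y j) ?_ ?_ x
      · intro i a ha
        rw [hG i a ha]
        split_ifs with h
        · subst h; exact ha
        · exact Submodule.zero_mem _
      · intro a b ha hb
        rw [map_add]; exact Submodule.add_mem _ ha hb
    · change e (π x) = 0
      rw [← hπe, hx, map_zero]
  have hI' : ∏ i ∈ I, (Polynomial.X - C (ν i)) =
      ((I.val.map ν).map fun a => Polynomial.X - C a).prod := by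
    rw [Multiset.map_map]; rfl
  rw [hI']
  apply prod_rational
  intro k'
  have hpow : ∀ x ∈ S, (F ^ k') x ∈ S := Module.End.pow_apply_mem_of_forall_mem k' hFS
  have hFe : ∀ x, e ((F ^ k') x) = (F ^ k') (e x) := by
    intro x
    have hc : Commute F (e : Module.End W.K (W.H Y)) := LinearMap.ext hfe
    exact congrArg (fun T => T x) (hc.pow_left k').eq.symm
  -- the operator
  set T : Module.End W.K (W.H Y) := π * (F ^ k' * (1 - e)) with hT
  have hTq : QOp W Y Y 0 T := by
    have h1 : QOp W Y Y 0 (1 - e : Module.End W.K (W.H Y)) := (rop_iff.1 rop_opAlg.one).sub he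
    have h2 : QOp W Y Y (0 + 0) ((F ^ k') ∘ₗ (1 - e : Module.End W.K (W.H Y))) :=
      QOp.comp (qop_pow (qop_pull _) k') h1
    rw [add_zero] at h2
    have h3 := QOp.comp hπq h2
    rw [add_zero] at h3
    exact h3
  have hTS : ∀ x, T x ∈ S := by
    intro x
    apply hπS
    change e ((F ^ k') (x - e x)) = 0
    rw [hFe, map_sub, hee, sub_self, map_zero]
  have hTx : ∀ x ∈ S, T x = (F ^ k') x := by
    rintro x hx
    have h1 : e x = 0 := hx.2
    have h2 : T x = π ((F ^ k') (x - e x)) := rfl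
    rw [h2, h1, sub_zero, hG j _ (hpow x hx).1, if_pos rfl]
  obtain ⟨q, hq⟩ := rop_str T (rop_iff.2 hTq)
  have hpar : ∀ x ∈ S, par (W.isInternal Y) x = (-1 : W.K) ^ j • x := by
    intro x hx
    rw [par, scal_apply _ _ hx.1]
  have hall : ∀ x, (par (W.isInternal Y) * T) x ∈ S := by
    intro x
    rw [Module.End.mul_apply, hpar _ (hTS x)]
    exact Submodule.smul_mem _ _ (hTS x)
  have htr := LinearMap.trace_restrict_eq_of_forall_mem S _ hall
  have hres : (par (W.isInternal Y) * T).restrict (fun x _ => hall x) =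
      (-1 : W.K) ^ j • (F.restrict hFS) ^ k' := by
    rw [Module.End.pow_restrict k' hFS hpow]
    apply LinearMap.ext
    rintro ⟨x, hx⟩
    apply Subtype.ext
    change (par (W.isInternal Y) * T) x = (-1 : W.K) ^ j • (F ^ k') x
    rw [Module.End.mul_apply, hTx x hx, hpar _ (hpow x hx)]
  rw [hres, map_smul, trace_pow_eq, hcp, hq] at htr
  have hroots : (∏ i ∈ I, (Polynomial.X - C (ν i))).roots = I.val.map ν := by
    rw [hI', roots_multiset_prod_X_sub_C]
  rw [hroots] at htr
  refine ⟨(-1) ^ j * q, ?_⟩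
  push_cast
  rw [← htr, smul_eq_mul, ← mul_assoc, ← pow_add, ← two_mul, pow_mul]
  simp

end Run7.h43.LT
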