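import Pool.Agent.Run7.h43.LT.Frob
import Pool.Agent.Run7.h43.LT.Rat

/-!
# The law for the defects
-/

open CategoryTheory AlgebraicGeometry Polynomial

universe u v

namespace Run7.h43.LT

open Pool.Agent.H914 Pool.Agent.H914.VarClass Pool.Agent.H914.VarClass.Obj
  Pool.Agent.H914.WeilCohomology Pool.Agent.R908 Run7.h43.TF
open Pool.Agent.W534 hiding iter
open Pool.Agent.TH132.P (PoleDefect)

section Comb

lemma roots_prod {ι : Type*} (A : Finset ι) (f : ι → ℂ) :
    (∏ i ∈ A, (X - C (f i))).roots = A.val.map f := by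
  have h1 : ∏ i ∈ A, (X - C (f i)) = ((A.val.map f).map fun a => X - C a).prod := by
    rw [Multiset.map_map]; rfl
  rw [h1, roots_multiset_prod_X_sub_C]

lemma pairs_prod {ι κ : Type*} (A : Finset ι) (B : Finset κ) (f : ι → ℂ) (g : κ → ℂ) (r : ℕ)
    (x : ℂ) [DecidableEq ℂ] : pairs (∏ i ∈ A, (X - C (f i))) (∏ j ∈ B, (X - C (g j))) r x =
      ∑ i ∈ A, ∑ j ∈ B, if f i * g j ^ r = x then 1 else 0 := by
  classical
  rw [pairs, roots_prod, roots_prod, Multiset.map_map]
  change ∑ i ∈ A, _ = _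
  refine Finset.sum_congr rfl fun i _ => ?_
  rw [Function.comp_apply, Multiset.countP_map, ← Finset.card_filter, Finset.card_def,
    Finset.filter_val]
  congr

lemma count_pairs {ι κ : Type*} [Fintype ι] [Fintype κ] (deg : ι → ℕ) (deg' : κ → ℕ)
    (f : ι → ℂ) (g : κ → ℂ) (ε : κ → Bool) {n m : ℕ} (hn : ∀ i, deg i ≤ n) (hm : ∀ j, deg' j ≤ m)
    (r c : ℕ) (q : ℂ) [DecidableEq ℂ] :
    (∑ x ∈ Finset.range (n + 1) ×ˢ Finset.range (m + 1), if x.1 + x.2 = 2 * c then
      pairs (∏ i ∈ Finset.univ.filter (fun i => deg i = x.1), (X - C (f i)))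
        (∏ j ∈ Finset.univ.filter (fun j => deg' j = x.2 ∧ ε j = false), (X - C (g j))) r q
      else 0) = (Finset.univ.filter fun z : ι × κ =>
        (deg z.1 + deg' z.2 = 2 * c ∧ f z.1 * g z.2 ^ r = q) ∧ ε z.2 = false).card := by
  have h1 : ∀ x ∈ Finset.range (n + 1) ×ˢ Finset.range (m + 1), (if x.1 + x.2 = 2 * c then
      pairs (∏ i ∈ Finset.univ.filter (fun i => deg i = x.1), (X - C (f i)))
        (∏ j ∈ Finset.univ.filter (fun j => deg' j = x.2 ∧ ε j = false), (X - C (g j))) r q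
      else 0) = ∑ z : ι × κ, if (deg z.1, deg' z.2) = x then
        (if (deg z.1 + deg' z.2 = 2 * c ∧ f z.1 * g z.2 ^ r = q) ∧ ε z.2 = false then 1 else 0)
        else 0 := by
    intro x _
    rw [pairs_prod, Fintype.sum_prod_type]
    by_cases hx : x.1 + x.2 = 2 * c
    · rw [if_pos hx, Finset.sum_filter]
      refine Finset.sum_congr rfl fun i _ => ?_
      by_cases hi : deg i = x.1
      · rw [if_pos hi, Finset.sum_filter]
        refine Finset.sum_congr rfl fun j _ => ?_
        by_cases hj : deg' j = x.2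
        · by_cases hε : ε j = false
          · have h3 : (deg i, deg' j) = x := by rw [hi, hj]
            rw [if_pos ⟨hj, hε⟩, if_pos h3]
            congr 1
            simp only [hi, hj, hx, hε, true_and, and_true]
          · rw [if_neg (fun h => hε h.2)]
            simp [hε]
        · rw [if_neg (fun h => hj h.1), if_neg]
          intro h
          exact hj (by rw [← h])
      · rw [if_neg hi]
        symm
        apply Finset.sum_eq_zero
        intro j _
        rw [if_neg]
        intro h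
        exact hi (by rw [← h])
    · rw [if_neg hx]
      symm
      apply Finset.sum_eq_zero
      intro i _
      apply Finset.sum_eq_zero
      intro j _
      by_cases h : (deg i, deg' j) = x
      · rw [if_pos h, if_neg]
        rintro ⟨⟨h1, -⟩, -⟩
        apply hx
        rw [← h1, ← h]
      · rw [if_neg h]
  rw [Finset.sum_congr rfl h1, Finset.sum_comm, Finset.card_filter]
  refine Finset.sum_congr rfl fun z _ => ?_
  rw [Finset.sum_ite_eq, if_pos]
  rw [Finset.mem_product, Finset.mem_range, Finset.mem_range]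
  exact ⟨Nat.lt_succ_of_le (hn _), Nat.lt_succ_of_le (hm _)⟩

end Comb

variable {k : Type u} [Field k] {𝒱 : VarClass k} {ops : CycleOps 𝒱}
  {W : WeilCohomology.{u, v} ops} {X Y Z : 𝒱.Obj} {𝒳 : Set 𝒱.Obj} {p : ℕ}
  {Φ : FrobSystem W p} {σ : W.K →+* ℂ}

open Pool.Agent.Y163 (genU genFam genU_eq mem_genU span_le_genU)

lemma homEqNum_of_pole (hp : 1 < p) (hRH : ∀ Z, RiemannHyp Φ σ Z)
    (h : ∀ c ≤ Z.dim, PoleFormula Φ σ Z c) : HomEqNum W Z := fun j hj z hz hn =>
  ((pole_iff_tate hp (hRH Z) hj).1 (h j hj)).2 z hz hn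

lemma genU_le_gr (Z : 𝒱.Obj) (j : ℕ) : genU Φ Z j ≤ W.gr Z (2 * j) := inf_le_right

lemma genU_le_of_pole (hp : 1 < p) (hRH : ∀ Z, RiemannHyp Φ σ Z)
    (h : ∀ c ≤ Z.dim, PoleFormula Φ σ Z c) (j : ℕ) : genU Φ Z j ≤ spanCycles W Z j := by
  by_cases hj : j ≤ Z.dim
  · exact (semisimple_of_pole hp (hRH Z) (l := Z.dim - j) (by omega) (h j hj)).1 _
      (exists_stable Φ Z j).choose_spec.1
  · intro x hx
    have h1 := genU_le_gr Z j hx
    rw [W.gr_eq_bot Z _ (by omega)] at h1
    rw [(Submodule.mem_bot _).1 h1]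
    exact Submodule.zero_mem _

lemma poleDefect_of (hp : 1 < p) (hRH : ∀ Z, RiemannHyp Φ σ Z) {c l δ : ℕ} (hcl : c + l = Z.dim)
    (h : Module.finrank W.K (genU Φ Z c) = kRank W Z c l + δ) : PoleDefect Φ σ Z c δ := by
  refine ⟨(exists_stable Φ Z c).choose, (exists_stable Φ Z c).choose_spec.1,
    fun s hs hts => ?_⟩
  rw [order_zetaFn Φ hp σ (hRH _) hs (by omega), genU_eq Φ hs hts, h,
    numRank_eq (W := W) (j := c) (by omega), show Z.dim - c = l by omega]
  push_cast
  rfl

/-- **The law for the defects.** -/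
theorem law [IsAlgClosed W.K] (hp : 1 < p) (hRH : ∀ Z, RiemannHyp Φ σ Z)
    (h𝒳 : ∀ X ∈ 𝒳, ∀ X' ∈ 𝒳, PoleTimes Φ σ X X') {e : W.H Y →ₗ[W.K] W.H Y}
    (he : Cuts W 𝒳 Y e) :
    ∃ t D, CDividePolys Φ σ Y t D ∧ CGivesDefects Φ σ 𝒳 Y t D ∧
      ((∀ j, D j = 1) → e = LinearMap.id) ∧
      (IntegralPolys Φ σ Y → ∀ j, ∃ χ : ℚ[X], D j = χ.map (algebraMap ℚ ℂ)) := by
  classical
  obtain ⟨t, ht, hcomm⟩ := exists_commute Φ Y
  obtain ⟨b', deg', ν, ε, hb', hε⟩ := exists_adapted_basis (Φ := Φ) Y t he.kop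
    (fun x => congrArg (fun F => F x) he.idem) (fun x => hcomm e he.kop x)
  set D : ℕ → ℂ[X] := fun j => ∏ i ∈ Finset.univ.filter (fun i => deg' i = j ∧ ε i = false),
    (Polynomial.X - C (σ (ν i))) with hDdef
  refine ⟨t, D, ⟨ht, fun j => ⟨monic_prod_of_monic _ _ fun i _ => monic_X_sub_C _, ?_⟩⟩, ?_, ?_, ?_⟩
  · rw [hb'.frobPoly_eq σ j]
    refine Finset.prod_dvd_prod_of_subset _ _ _ fun i hi => ?_
    exact Finset.mem_filter.2 ⟨Finset.mem_univ _, (Finset.mem_filter.1 hi).2.1⟩
  · intro X hX c hc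
    obtain ⟨l, hl⟩ := Nat.exists_eq_add_of_le hc
    have hrank := he.rank (genFam Φ) (fun Z j => genU_le_gr Z j) (fun Z j => span_le_genU Φ Z j)
      (fun X hX X' hX' => homEqNum_of_pole hp hRH (h𝒳 X hX X' hX'))
      (fun X hX X' hX' j => genU_le_of_pole hp hRH (h𝒳 X hX X' hX') j) hX hl.symm
    refine ⟨_, poleDefect_of hp hRH hl.symm hrank, ?_⟩
    obtain ⟨A, B, B', hA, hB, hB', e1, e2, h1, h2⟩ := levels Φ X Y
    set st := (exists_stable Φ (X.prod Y) c).choose with hst
    have hst0 : 0 < st := (exists_stable Φ (X.prod Y) c).choose_spec.1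
    refine ⟨A * st * Φ.e (X.prod Y), Nat.mul_pos (Nat.mul_pos hA hst0) (Φ.e_pos _), ?_⟩
    rintro a r ha hr ⟨r', rfl⟩ har
    set s' := st * (r' * t * Φ.e Y) with hs'
    have hAs : A * s' * Φ.e (X.prod Y) = a * Φ.e X := by rw [har, hs']; ring
    have haB : a = B * s' := by
      have : a * Φ.e X = B * s' * Φ.e X := by
        rw [← hAs]
        calc A * s' * Φ.e (X.prod Y) = (A * Φ.e (X.prod Y)) * s' := by ring
          _ = B * s' * Φ.e X := by rw [e1]; ring
      exact Nat.eq_of_mul_eq_mul_right (Φ.e_pos X) this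
    have htB : t * (A * st * Φ.e (X.prod Y) * r') = B' * s' := by
      have : t * (A * st * Φ.e (X.prod Y) * r') * Φ.e Y = B' * s' * Φ.e Y := by
        calc t * (A * st * Φ.e (X.prod Y) * r') * Φ.e Y
            = (A * Φ.e (X.prod Y)) * s' := by rw [hs']; ring
          _ = B' * s' * Φ.e Y := by rw [e2]; ring
      exact Nat.eq_of_mul_eq_mul_right (Φ.e_pos Y) this
    set r := A * st * Φ.e (X.prod Y) * r' with hr'
    have hs0 : 0 < A * s' := by
      rcases Nat.eq_zero_or_pos (A * s') with h0 | h0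
      · rw [h0, zero_mul] at hAs
        have := Nat.mul_pos ha (Φ.e_pos X)
        omega
      · exact h0
    obtain ⟨b, deg, μ, -, hb, -⟩ := exists_adapted_basis (Φ := Φ) X a (e := 0)
      (Submodule.zero_mem _) (fun x => rfl) (fun x => map_zero _)
    obtain ⟨BB, hBB⟩ := exists_prod_basis b b'
    have hbr := hb'.pow r
    have hgen : ∀ z, BB z ∈ (frob Φ (X.prod Y) (A * s')).maxGenEigenspace
        (μ z.1 * ν z.2 ^ r) := by
      rintro ⟨i, j⟩
      rw [hBB]
      refine Pool.Agent.Y136.UB.gen_mul (fun x y => frob_mulH Φ _ x y) ?_ ?_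
      · refine Pool.Agent.Y136.UB.gen_map (f := frob Φ X a) (W.map (fst X Y)).toLinearMap ?_
          (hb i).2
        intro x
        have := h1 s' x
        rw [← haB] at this
        exact this
      · refine Pool.Agent.Y136.UB.gen_map (f := frob Φ Y (t * r)) (W.map (snd X Y)).toLinearMap ?_
          (hbr j).2
        intro y
        have := h2 s' y
        rw [← htB] at this
        exact this
    have hdeg : ∀ z, BB z ∈ W.gr (X.prod Y) (deg z.1 + deg' z.2) := by
      rintro ⟨i, j⟩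
      rw [hBB]
      exact W.mul_mem (W.map_mem _ (hb i).1) (W.map_mem _ (hb' j).1)
    have hpr : ∀ z, pr X e (BB z) = if ε z.2 then BB z else 0 := by
      rintro ⟨i, j⟩
      rw [hBB]
      change extHom W LinearMap.id e _ = _
      rw [extHom_tmul, hε]
      by_cases h : ε j = true
      · rw [if_pos h, if_pos h]; rfl
      · rw [if_neg h, if_neg h, map_zero, mul_zero]
    have hcard : (card Φ (X.prod Y) (A * s') : W.K) = (card Φ X a : W.K) := by
      rw [Pool.Agent.W534.card, Pool.Agent.W534.card, mul_comm (Φ.e (X.prod Y)), hAs, mul_comm]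
    have hcount := finrank_eq_card BB
      ((genFam Φ).T (X.prod Y) c ⊓ LinearMap.ker (pr X e) : Submodule _ _)
      (Finset.univ.filter fun z => (deg z.1 + deg' z.2 = 2 * c ∧
        σ (μ z.1) * σ (ν z.2) ^ r = (card Φ X a : ℂ) ^ c) ∧ ε z.2 = false) ?_ ?_
    · rw [hcount, crossCount, ← count_pairs deg deg' (fun i => σ (μ i)) (fun j => σ (ν j)) ε
        hb.deg_le hb'.deg_le r c]
      refine Finset.sum_congr rfl fun x _ => ?_
      rw [hb.frobPoly_eq σ x.1]
    · intro z hz
      obtain ⟨⟨h3, h4⟩, h5⟩ := (Finset.mem_filter.1 hz).2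
      refine ⟨?_, ?_⟩
      · change BB z ∈ genU Φ (X.prod Y) c
        rw [← genU_eq Φ hs0 (dvd_mul_of_dvd_right ⟨_, hs'⟩ A)]
        refine ⟨?_, by rw [← h3]; exact hdeg z⟩
        have h6 : μ z.1 * ν z.2 ^ r = (card Φ (X.prod Y) (A * s') : W.K) ^ c := by
          apply σ.injective
          rw [map_mul, map_pow, h4, hcard, map_pow, map_natCast]
        rw [← h6]
        exact hgen z
      · change pr X e (BB z) = 0
        rw [hpr, h5]; rfl
    · rintro x ⟨hx1, hx2⟩ z hz
      change x ∈ genU Φ (X.prod Y) c at hx1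
      rw [← genU_eq Φ hs0 (dvd_mul_of_dvd_right ⟨_, hs'⟩ A)] at hx1
      obtain ⟨hx3, hx4⟩ := hx1
      by_cases h3 : deg z.1 + deg' z.2 = 2 * c
      · by_cases h4 : μ z.1 * ν z.2 ^ r = (card Φ (X.prod Y) (A * s') : W.K) ^ c
        · by_cases h5 : ε z.2 = false
          · exfalso
            apply hz
            refine Finset.mem_filter.2 ⟨Finset.mem_univ _, ⟨h3, ?_⟩, h5⟩
            rw [← map_pow, ← map_mul, h4, hcard, map_pow, map_natCast]
          · exact repr_ker BB hpr hx2 (by simpa using h5)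
        · exact repr_zero (Module.End.independent_maxGenEigenspace _) BB hgen hx3 h4
      · exact repr_zero (gr_indep _) BB hdeg hx4 h3
  · intro hD1
    have hall : ∀ i, ε i = true := by
      intro i
      by_contra hi
      have h3 : D (deg' i) ≠ 1 := by
        intro h4
        have h5 := congrArg natDegree h4
        rw [hDdef, natDegree_prod_of_monic _ _ fun i _ => monic_X_sub_C _, natDegree_one] at h5
        rw [Finset.sum_eq_zero_iff] at h5
        have h6 := h5 i (Finset.mem_filter.2 ⟨Finset.mem_univ _, rfl, by simpa using hi⟩)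
        rw [natDegree_X_sub_C] at h6
        exact one_ne_zero h6
      exact h3 (hD1 _)
    apply b'.ext
    intro i
    rw [hε, if_pos (hall i)]
    rfl

  · intro hint j
    obtain ⟨χ, hχ⟩ := sum_rational hp (hRH Y) hint ht he.qop
      (fun x => congrArg (fun F => F x) he.idem) (fun x => hcomm e he.kop x) hb' hε j
    refine ⟨χ, ?_⟩
    have h1 := congrArg (Polynomial.map σ) hχ
    rw [Polynomial.map_map, Polynomial.map_prod] at h1
    simp only [Polynomial.map_sub, Polynomial.map_X, Polynomial.map_C] at h1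
    have h2 : D j = Polynomial.map (σ.comp (algebraMap ℚ W.K)) χ := h1.symm
    rw [h2]
    congr 1
    exact RingHom.ext_rat _ _

end Run7.h43.LT
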