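import Pool.Agent.Run7.h43.LT.Core
import Pool.Agent.Y163.TateB

/-!
# Systems of classes on the products with members of a set of varieties
-/

open CategoryTheory AlgebraicGeometry

universe u v

namespace Run7.h43.LT

open Pool.Agent.H914 Pool.Agent.H914.VarClass Pool.Agent.H914.VarClass.Obj
  Pool.Agent.H914.WeilCohomology Pool.Agent.R908 Run7.h43.TF
open Pool.Agent.Y163 (SFam)
open Pool.Agent.W534 (pair kRank pair_apply kRank_le QOp)

variable {k : Type u} [Field k] {𝒱 : VarClass k} {ops : CycleOps 𝒱}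
  {W : WeilCohomology.{u, v} ops} {X Y Z X' : 𝒱.Obj} {𝒳 : Set 𝒱.Obj}

/-- The action of an external product with the identity. -/
lemma corr_extHom {e : W.H Y →ₗ[W.K] W.H Y} (he : e ∈ KOp W Y Y 0) (γ : W.H (X.prod Y)) :
    W.corr (extHom W LinearMap.id e γ) = e ∘ₗ W.corr γ := by
  refine W.kunneth_induction (p := fun γ => W.corr (extHom W LinearMap.id e γ) =
    e ∘ₗ W.corr γ) ?_ ?_ γ
  · intro a b ha hb
    rw [map_add, corr_add, ha, hb, corr_add, LinearMap.comp_add]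
  · intro i j a ha b hb
    rw [extHom_tmul]
    apply gr_ext (W.isInternal X)
    intro l x hx
    have key : ∀ (b' : W.H Y), b' ∈ W.gr Y j →
        W.corr (W.map (fst X Y) a * W.map (snd X Y) b') x =
          ((-1 : W.K) ^ (j * l) * W.tr X (a * x)) • b' := by
      intro b' hb'
      rw [corr_apply, mul_assoc, W.comm (W.map_mem (snd X Y) hb') (W.map_mem (fst X Y) hx),
        mul_smul_comm, ← mul_assoc, ← map_mul, map_smul, push_snd, smul_smul]
    have hej : e b ∈ W.gr Y j := by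
      have h1 := KOp.isHom he (j : ℤ) b (by rw [grZ_natCast]; exact hb)
      rwa [mul_zero, add_zero, grZ_natCast] at h1
    rw [LinearMap.id_apply, key _ hej, LinearMap.comp_apply, key _ hb, map_smul]

lemma zero_of_neg {d : ℤ} {φ : W.H Y →ₗ[W.K] W.H Z} (hφ : φ ∈ KOp W Y Z d) {j : ℤ}
    {x : W.H Y} (hx : x ∈ grZ (W.gr Y) (2 * j)) (hj : j + d < 0) : φ x = 0 := by
  have h1 := KOp.isHom hφ _ _ hx
  rw [grZ_of_neg (by omega)] at h1
  exact (Submodule.mem_bot _).1 h1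

/-- The values of the operators which factor through `𝒳`, on the second factor. -/
lemma fac_value (F : SFam W) (hgr : ∀ Z j, F.T Z j ≤ W.gr Z (2 * j))
    (hF : ∀ X ∈ 𝒳, ∀ X' ∈ 𝒳, ∀ j, F.T (X.prod X') j ≤ spanCycles W (X.prod X') j)
    (hX : X ∈ 𝒳) {d : ℤ} {ψ : W.H Y →ₗ[W.K] W.H Z} (hψ : ψ ∈ Fac W 𝒳 Y Z d) {c : ℕ}
    {x : W.H (X.prod Y)} (hx : x ∈ F.T (X.prod Y) c) :
    extHom W LinearMap.id ψ x ∈ spanCycles W (X.prod Z) (c + d) := by
  induction hψ using Submodule.span_induction with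
  | mem ψ hψ =>
    obtain ⟨X', hX', d₁, d₂, hd, δ, hδ, a, ha, rfl⟩ := hψ
    have e1 : extHom W (LinearMap.id : W.H X →ₗ[W.K] W.H X) (a ∘ₗ δ) =
        extHom W LinearMap.id a ∘ₗ extHom W LinearMap.id δ := by
      rw [extHom_comp]; rfl
    have h1 : extHom W (LinearMap.id : W.H X →ₗ[W.K] W.H X) δ ∈
        KOp W (X.prod Y) (X.prod X') (0 + d₁) := KOp.extHom (KOp.id X) hδ
    have h2 : extHom W (LinearMap.id : W.H X →ₗ[W.K] W.H X) a ∈
        KOp W (X.prod X') (X.prod Z) (0 + d₂) := KOp.extHom (KOp.id X) ha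
    rw [e1, LinearMap.comp_apply]
    by_cases hc : (c : ℤ) + d₁ < 0
    · have h3 : extHom W (LinearMap.id : W.H X →ₗ[W.K] W.H X) δ x = 0 :=
        zero_of_neg h1 (j := c) (by
          rw [show (2 * (c : ℤ)) = ((2 * c : ℕ) : ℤ) by push_cast; ring, grZ_natCast]
          exact hgr _ _ hx) (by omega)
      rw [h3, map_zero]
      exact Submodule.zero_mem _
    · obtain ⟨m, hm⟩ := Int.eq_ofNat_of_zero_le (not_lt.1 hc)
      have h3 := F.stable h1 (j' := m) (by rw [← hm]; ring) hx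
      have h4 := KOp.map_span h2 (hF X hX X' hX' m h3)
      rwa [show (m : ℤ) + (0 + d₂) = c + d by rw [← hd, ← hm]; ring] at h4
  | zero => rw [extHom_zero_right]; exact Submodule.zero_mem _
  | add φ φ' _ _ h h' => rw [extHom_add_right]; exact Submodule.add_mem _ h h'
  | smul r φ _ h => rw [extHom_smul_right]; exact Submodule.smul_mem _ _ h

/-- The operators which factor through `𝒳` kill the numerically trivial classes. -/
lemma fac_kill (h𝒳 : ∀ X ∈ 𝒳, ∀ X' ∈ 𝒳, HomEqNum W (X.prod X')) (hX : X ∈ 𝒳) {d : ℤ}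
    {ψ : W.H Y →ₗ[W.K] W.H Z} (hψ : ψ ∈ Fac W 𝒳 Y Z d) {c : ℤ}
    {x : W.H (X.prod Y)} (hx : x ∈ spanCycles W (X.prod Y) c) (hn : NumTriv W _ x) :
    extHom W LinearMap.id ψ x = 0 := by
  induction hψ using Submodule.span_induction with
  | mem ψ hψ =>
    obtain ⟨X', hX', d₁, d₂, hd, δ, hδ, a, ha, rfl⟩ := hψ
    have e1 : extHom W (LinearMap.id : W.H X →ₗ[W.K] W.H X) (a ∘ₗ δ) =
        extHom W LinearMap.id a ∘ₗ extHom W LinearMap.id δ := by
      rw [extHom_comp]; rfl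
    have h1 : extHom W (LinearMap.id : W.H X →ₗ[W.K] W.H X) δ ∈
        KOp W (X.prod Y) (X.prod X') (0 + d₁) := KOp.extHom (KOp.id X) hδ
    rw [e1, LinearMap.comp_apply, zero_of_homEqNum (h𝒳 X hX X' hX') (KOp.map_span h1 hx)
      (NumTriv.op h1 hn), map_zero]
  | zero => rw [extHom_zero_right]; rfl
  | add φ φ' _ _ h h' => rw [extHom_add_right, LinearMap.add_apply, h, h', add_zero]
  | smul r φ _ h => rw [extHom_smul_right, LinearMap.smul_apply, h, smul_zero]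

/-- The same on the first factor. -/
lemma fac_value_left (F : SFam W) (hgr : ∀ Z j, F.T Z j ≤ W.gr Z (2 * j)) {U : 𝒱.Obj}
    (hF : ∀ X ∈ 𝒳, ∀ j, F.T (X.prod U) j ≤ spanCycles W (X.prod U) j)
    {d : ℤ} {ψ : W.H Y →ₗ[W.K] W.H Z} (hψ : ψ ∈ Fac W 𝒳 Y Z d) {c : ℕ}
    {x : W.H (Y.prod U)} (hx : x ∈ F.T (Y.prod U) c) :
    extHom W ψ LinearMap.id x ∈ spanCycles W (Z.prod U) (c + d) := by
  induction hψ using Submodule.span_induction with
  | mem ψ hψ =>
    obtain ⟨X', hX', d₁, d₂, hd, δ, hδ, a, ha, rfl⟩ := hψ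
    have e1 : extHom W (a ∘ₗ δ) (LinearMap.id : W.H U →ₗ[W.K] W.H U) =
        extHom W a LinearMap.id ∘ₗ extHom W δ LinearMap.id := by
      rw [extHom_comp]; rfl
    have h1 : extHom W δ (LinearMap.id : W.H U →ₗ[W.K] W.H U) ∈
        KOp W (Y.prod U) (X'.prod U) (d₁ + 0) := KOp.extHom hδ (KOp.id U)
    have h2 : extHom W a (LinearMap.id : W.H U →ₗ[W.K] W.H U) ∈
        KOp W (X'.prod U) (Z.prod U) (d₂ + 0) := KOp.extHom ha (KOp.id U)
    rw [e1, LinearMap.comp_apply]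
    by_cases hc : (c : ℤ) + d₁ < 0
    · have h3 : extHom W δ (LinearMap.id : W.H U →ₗ[W.K] W.H U) x = 0 :=
        zero_of_neg h1 (j := c) (by
          rw [show (2 * (c : ℤ)) = ((2 * c : ℕ) : ℤ) by push_cast; ring, grZ_natCast]
          exact hgr _ _ hx) (by omega)
      rw [h3, map_zero]
      exact Submodule.zero_mem _
    · obtain ⟨m, hm⟩ := Int.eq_ofNat_of_zero_le (not_lt.1 hc)
      have h3 := F.stable h1 (j' := m) (by rw [← hm]; ring) hx
      have h4 := KOp.map_span h2 (hF X' hX' m h3)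
      rwa [show (m : ℤ) + (d₂ + 0) = c + d by rw [← hd, ← hm]; ring] at h4
  | zero => rw [extHom_zero_left]; exact Submodule.zero_mem _
  | add φ φ' _ _ h h' => rw [extHom_add_left]; exact Submodule.add_mem _ h h'
  | smul r φ _ h => rw [extHom_smul_left]; exact Submodule.smul_mem _ _ h

lemma fac_kill_left {U : 𝒱.Obj} (h𝒳 : ∀ X ∈ 𝒳, HomEqNum W (X.prod U)) {d : ℤ}
    {ψ : W.H Y →ₗ[W.K] W.H Z} (hψ : ψ ∈ Fac W 𝒳 Y Z d) {c : ℤ}
    {x : W.H (Y.prod U)} (hx : x ∈ spanCycles W (Y.prod U) c) (hn : NumTriv W _ x) :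
    extHom W ψ LinearMap.id x = 0 := by
  induction hψ using Submodule.span_induction with
  | mem ψ hψ =>
    obtain ⟨X', hX', d₁, d₂, hd, δ, hδ, a, ha, rfl⟩ := hψ
    have e1 : extHom W (a ∘ₗ δ) (LinearMap.id : W.H U →ₗ[W.K] W.H U) =
        extHom W a LinearMap.id ∘ₗ extHom W δ LinearMap.id := by
      rw [extHom_comp]; rfl
    have h1 : extHom W δ (LinearMap.id : W.H U →ₗ[W.K] W.H U) ∈
        KOp W (Y.prod U) (X'.prod U) (d₁ + 0) := KOp.extHom hδ (KOp.id U)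
    rw [e1, LinearMap.comp_apply, zero_of_homEqNum (h𝒳 X' hX') (KOp.map_span h1 hx)
      (NumTriv.op h1 hn), map_zero]
  | zero => rw [extHom_zero_left]; rfl
  | add φ φ' _ _ h h' => rw [extHom_add_left, LinearMap.add_apply, h, h', add_zero]
  | smul r φ _ h => rw [extHom_smul_left, LinearMap.smul_apply, h, smul_zero]

/-- The projector `e` cuts out the part of the cohomology of `Y` generated by `𝒳`. -/
structure Cuts (W : WeilCohomology.{u, v} ops) (𝒳 : Set 𝒱.Obj) (Y : 𝒱.Obj)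
    (e : W.H Y →ₗ[W.K] W.H Y) : Prop where
  mem : e ∈ Fac W 𝒳 Y Y 0
  qop : QOp W Y Y 0 e
  idem : e ∘ₗ e = e
  kill : ∀ X ∈ 𝒳, ∀ (d : ℤ), ∀ a ∈ KOp W X Y d, ∀ δ ∈ KOp W Y X (-d), δ ∘ₗ (a - e ∘ₗ a) = 0

lemma exists_cuts (h𝒳 : ∀ X ∈ 𝒳, ∀ X' ∈ 𝒳, HomEqNum W (X.prod X')) (Y : 𝒱.Obj) :
    ∃ e, Cuts W 𝒳 Y e := by
  obtain ⟨e, h1, h2, h3, h4⟩ := core h𝒳 Y
  exact ⟨e, h1, h2, h3, h4⟩

/-- The projector on the cohomology of `X × Y`. -/
noncomputable def pr (X : 𝒱.Obj) {Y : 𝒱.Obj} (e : W.H Y →ₗ[W.K] W.H Y) :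
    Module.End W.K (W.H (X.prod Y)) := extHom W LinearMap.id e

lemma Cuts.kop {e : W.H Y →ₗ[W.K] W.H Y} (h : Cuts W 𝒳 Y e) : e ∈ KOp W Y Y 0 := fac_le h.mem

lemma Cuts.pr_idem {e : W.H Y →ₗ[W.K] W.H Y} (h : Cuts W 𝒳 Y e) (x : W.H (X.prod Y)) :
    pr X e (pr X e x) = pr X e x := by
  have h1 : extHom W (LinearMap.id : W.H X →ₗ[W.K] W.H X) e ∘ₗ extHom W LinearMap.id e =
      extHom W LinearMap.id e := by
    rw [extHom_comp, h.idem]; rfl
  exact congrArg (fun F => F x) h1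

lemma Cuts.pr_kop {e : W.H Y →ₗ[W.K] W.H Y} (h : Cuts W 𝒳 Y e) :
    pr X e ∈ KOp W (X.prod Y) (X.prod Y) 0 := by
  have := KOp.extHom (KOp.id X) h.kop
  rwa [add_zero] at this

lemma Cuts.sub_num {e : W.H Y →ₗ[W.K] W.H Y} (h : Cuts W 𝒳 Y e) (hX : X ∈ 𝒳) {c : ℤ}
    {x : W.H (X.prod Y)} (hx : x ∈ spanCycles W (X.prod Y) c) : NumTriv W _ (x - pr X e x) := by
  have h1 : pr X e x ∈ spanCycles W (X.prod Y) c := by
    have := KOp.map_span (h.pr_kop (X := X)) hx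
    rwa [add_zero] at this
  have hc : (X.dim : ℤ) + (c - X.dim) = c := by ring
  refine numTriv_of_killed' (d := c - X.dim) (by
    rw [hc]; exact Submodule.sub_mem _ hx h1) fun δ hδ => ?_
  have h2 : W.corr (x - pr X e x) = W.corr x - e ∘ₗ W.corr x := by
    rw [sub_eq_add_neg, corr_add, ← corr_extHom h.kop x, sub_eq_add_neg]
    congr 1
    apply LinearMap.ext
    intro a
    rw [corr_apply, neg_mul, map_neg, LinearMap.neg_apply]
    rfl
  rw [h2]
  exact h.kill X hX _ _ (mem_KOp_iff.2 ⟨x, by rw [hc]; exact hx, rfl⟩) δ hδ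

lemma pair_eq_zero_iff {c l : ℕ} (hcl : c + l = Z.dim) (x : spanCycles W Z c) :
    pair W Z c l x = 0 ↔ NumTriv W Z (x : W.H Z) := by
  constructor
  · intro h j g hg
    by_cases hj : j = l
    · subst hj
      exact congrArg (fun F => F ⟨g, hg⟩) h
    · exact tr_span_ne (by omega) x.2 hg
  · intro h
    apply LinearMap.ext
    intro g
    exact h l g g.2

/-- The rank of the pairing is the dimension of the image of the system under the projector. -/
theorem Cuts.rank {e : W.H Y →ₗ[W.K] W.H Y} (h : Cuts W 𝒳 Y e) (F : SFam W)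
    (hgr : ∀ Z j, F.T Z j ≤ W.gr Z (2 * j)) (hle : ∀ (Z : 𝒱.Obj) (j : ℕ), spanCycles W Z j ≤ F.T Z j)
    (h𝒳 : ∀ X ∈ 𝒳, ∀ X' ∈ 𝒳, HomEqNum W (X.prod X'))
    (hF : ∀ X ∈ 𝒳, ∀ X' ∈ 𝒳, ∀ j : ℕ, F.T (X.prod X') j ≤ spanCycles W (X.prod X') j)
    (hX : X ∈ 𝒳) {c l : ℕ} (hcl : c + l = (X.prod Y).dim) :
    Module.finrank W.K (F.T (X.prod Y) c) = kRank W (X.prod Y) c l +
      Module.finrank W.K (F.T (X.prod Y) c ⊓ LinearMap.ker (pr X e) : Submodule _ _) := by
  have hval : ∀ x ∈ F.T (X.prod Y) c, pr X e x ∈ spanCycles W (X.prod Y) c := by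
    intro x hx
    have := fac_value F hgr hF hX h.mem hx
    rwa [add_zero] at this
  -- the kernel of the pairing
  set f : spanCycles W (X.prod Y) c →ₗ[W.K] W.H (X.prod Y) :=
    pr X e ∘ₗ (spanCycles W (X.prod Y) c).subtype with hf
  have hker : LinearMap.ker (pair W (X.prod Y) c l) = LinearMap.ker f := by
    ext x
    rw [LinearMap.mem_ker, LinearMap.mem_ker, pair_eq_zero_iff hcl]
    constructor
    · intro hn
      exact fac_kill h𝒳 hX h.mem x.2 hn
    · intro h0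
      have h1 := h.sub_num hX x.2
      have h2 : pr X e (x : W.H (X.prod Y)) = 0 := h0
      rwa [h2, sub_zero] at h1
  have h1 := LinearMap.finrank_range_add_finrank_ker (pair W (X.prod Y) c l)
  have h2 := LinearMap.finrank_range_add_finrank_ker f
  rw [hker] at h1
  -- the image
  set g : F.T (X.prod Y) c →ₗ[W.K] W.H (X.prod Y) := pr X e ∘ₗ (F.T (X.prod Y) c).subtype with hg
  have hrange : LinearMap.range f = LinearMap.range g := by
    apply le_antisymm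
    · rintro _ ⟨x, rfl⟩
      exact ⟨⟨x, hle _ _ x.2⟩, rfl⟩
    · rintro _ ⟨x, rfl⟩
      exact ⟨⟨pr X e x, hval x x.2⟩, h.pr_idem _⟩
  have h3 := LinearMap.finrank_range_add_finrank_ker g
  have h4 : Module.finrank W.K (LinearMap.ker g) =
      Module.finrank W.K (F.T (X.prod Y) c ⊓ LinearMap.ker (pr X e) : Submodule _ _) := by
    have h5 : (LinearMap.ker g).map (F.T (X.prod Y) c).subtype =
        F.T (X.prod Y) c ⊓ LinearMap.ker (pr X e) := by
      ext x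
      constructor
      · rintro ⟨y, hy, rfl⟩
        exact ⟨y.2, hy⟩
      · rintro ⟨hx, hx'⟩
        exact ⟨⟨x, hx⟩, hx', rfl⟩
    rw [← h5]
    exact (LinearEquiv.finrank_eq (Submodule.equivMapOfInjective _
      (Submodule.subtype_injective _) _))
  rw [kRank]
  rw [hrange] at h2
  omega

end Run7.h43.LT
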